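import Mathlib

/-! Definitions: rectangles, test functions, magnetic derivatives, the space `W_0^{1,2}`,
minimisers, the lowest eigenvalue. -/

namespace Pool.Agent.Lib.MP_0fe113_an

open MeasureTheory Set Filter Topology

/-- The open rectangle `(-a/2, a/2) × (-1/(2a), 1/(2a))` of area one; `rect 1` is the open unit
square centred at the origin. -/
def rect (a : ℝ) : Set (ℝ × ℝ) := Ioo (-(a / 2)) (a / 2) ×ˢ Ioo (-(1 / (2 * a))) (1 / (2 * a))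

/-- Smooth complex valued functions with compact support in `Ω`. -/
structure IsTest (Ω : Set (ℝ × ℝ)) (φ : ℝ × ℝ → ℂ) : Prop where
  smooth : ContDiff ℝ (⊤ : ℕ∞) φ
  compact : HasCompactSupport φ
  supp : tsupport φ ⊆ Ω

/-- The classical partial derivatives `∂₁ φ` and `∂₂ φ`. -/
noncomputable def pd1 (φ : ℝ × ℝ → ℂ) (q : ℝ × ℝ) : ℂ := fderiv ℝ φ q (1, 0)

/-- The classical partial derivative `∂₂ φ`. -/
noncomputable def pd2 (φ : ℝ × ℝ → ℂ) (q : ℝ × ℝ) : ℂ := fderiv ℝ φ q (0, 1)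

/-- The first component `A₁ = -(B/2) x₂` of the vector potential. -/
noncomputable def A1 (B : ℝ) (q : ℝ × ℝ) : ℝ := -(B / 2) * q.2

/-- The second component `A₂ = (B/2) x₁` of the vector potential. -/
noncomputable def A2 (B : ℝ) (q : ℝ × ℝ) : ℝ := B / 2 * q.1

/-- The magnetic derivative `∂₁ u - i A₁ u`, where `g` stands for the derivative `∂₁ u`. -/
noncomputable def mag1 (B : ℝ) (u g : ℝ × ℝ → ℂ) (q : ℝ × ℝ) : ℂ :=
  g q - Complex.I * (A1 B q : ℂ) * u q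

/-- The magnetic derivative `∂₂ u - i A₂ u`, where `g` stands for the derivative `∂₂ u`. -/
noncomputable def mag2 (B : ℝ) (u g : ℝ × ℝ → ℂ) (q : ℝ × ℝ) : ℂ :=
  g q - Complex.I * (A2 B q : ℂ) * u q

/-- The norm of `L²(Ω)`. -/
noncomputable def nrm (Ω : Set (ℝ × ℝ)) (u : ℝ × ℝ → ℂ) : ℝ :=
  (eLpNorm u 2 (volume.restrict Ω)).toReal

/-- `u` lies in the Sobolev space `W_0^{1,2}(Ω)` and has the weak partial derivatives `g₁`, `g₂`:
there is a sequence of test functions `φ n` which tends to `u` in `L²(Ω)` and whose partial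
derivatives tend to `g₁` and `g₂` in `L²(Ω)`. -/
def IsW0 (Ω : Set (ℝ × ℝ)) (u g₁ g₂ : ℝ × ℝ → ℂ) : Prop :=
  MemLp u 2 (volume.restrict Ω) ∧ MemLp g₁ 2 (volume.restrict Ω) ∧
  MemLp g₂ 2 (volume.restrict Ω) ∧
  ∃ φ : ℕ → ℝ × ℝ → ℂ, (∀ n, IsTest Ω (φ n)) ∧
    Tendsto (fun n => eLpNorm (fun q => φ n q - u q) 2 (volume.restrict Ω)) atTop (𝓝 0) ∧
    Tendsto (fun n => eLpNorm (fun q => pd1 (φ n) q - g₁ q) 2 (volume.restrict Ω)) atTop (𝓝 0) ∧
    Tendsto (fun n => eLpNorm (fun q => pd2 (φ n) q - g₂ q) 2 (volume.restrict Ω)) atTop (𝓝 0)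

/-- `u`, with the weak partial derivatives `g₁` and `g₂`, is a minimiser for `μ(B)`: it is a
nonzero element of `W_0^{1,2}(Ω₁)`, where `Ω₁ = rect 1` is the unit square, and no nonzero element
of `W_0^{1,2}(Ω₁)` gives a smaller value of `2 ‖∂₁^A w‖ ‖∂₂^A w‖ / ‖w‖²`. -/
def IsMinimiser (B : ℝ) (u g₁ g₂ : ℝ × ℝ → ℂ) : Prop :=
  IsW0 (rect 1) u g₁ g₂ ∧ nrm (rect 1) u ≠ 0 ∧
  ∀ w h₁ h₂ : ℝ × ℝ → ℂ, IsW0 (rect 1) w h₁ h₂ → nrm (rect 1) w ≠ 0 →
    2 * nrm (rect 1) (mag1 B u g₁) * nrm (rect 1) (mag2 B u g₂) / nrm (rect 1) u ^ 2 ≤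
      2 * nrm (rect 1) (mag1 B w h₁) * nrm (rect 1) (mag2 B w h₂) / nrm (rect 1) w ^ 2

/-- The set of the Rayleigh quotients of the nonzero test functions on the rectangle. -/
def rayleighSet (B a : ℝ) : Set ℝ :=
  {r | ∃ φ, IsTest (rect a) φ ∧ 0 < (∫ q, ‖φ q‖ ^ 2) ∧
    r = ((∫ q, ‖mag1 B φ (pd1 φ) q‖ ^ 2) + ∫ q, ‖mag2 B φ (pd2 φ) q‖ ^ 2) / ∫ q, ‖φ q‖ ^ 2}

/-- The lowest eigenvalue `λ₁^B(Ω_{a,1/a})` of the Dirichlet realisation of `(-i∇ - A)²` on the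
rectangle, as the infimum of the Rayleigh quotients over smooth functions with compact support. -/
noncomputable def lam (B a : ℝ) : ℝ := sInf (rayleighSet B a)

end Pool.Agent.Lib.MP_0fe113_an
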