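import Mathlib
import Pool.Agent.Lib.MP_0fe113_an.Defs

/-! The lower bound for the magnetic form on a strip, in the Landau gauge, from Riccati data. -/

namespace Pool.Agent.Lib.MP_0fe113_an

open MeasureTheory Set Filter Topology

section Aux

variable {K : Set (ℝ × ℝ)} {l : ℝ}

theorem continuous_mul_of_support {a : ℝ → ℝ} {W : ℝ × ℝ → ℝ} (hK : IsCompact K)
    (hKl : ∀ q ∈ K, q.2 ∈ Ioo (-l) l) (ha : ∀ y ∈ Ioo (-l) l, ContinuousAt a y)
    (hW : Continuous W) (hW0 : ∀ q ∉ K, W q = 0) :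
    Continuous fun q : ℝ × ℝ => a q.2 * W q := by
  rw [continuous_iff_continuousAt]
  intro q
  by_cases hq : q ∈ K
  · have h1 : ContinuousAt (fun q : ℝ × ℝ => a q.2) q :=
      ContinuousAt.comp (f := fun q : ℝ × ℝ => q.2) (ha q.2 (hKl q hq)) continuousAt_snd
    exact h1.mul hW.continuousAt
  · have : (fun q : ℝ × ℝ => a q.2 * W q) =ᶠ[𝓝 q] fun _ => 0 := by
      filter_upwards [hK.isClosed.isOpen_compl.mem_nhds hq] with z hz
      rw [hW0 z hz, mul_zero]
    exact continuousAt_const.congr this.symm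

theorem integrable_mul_of_support {a : ℝ → ℝ} {W : ℝ × ℝ → ℝ} (hK : IsCompact K)
    (hKl : ∀ q ∈ K, q.2 ∈ Ioo (-l) l) (ha : ∀ y ∈ Ioo (-l) l, ContinuousAt a y)
    (hW : Continuous W) (hW0 : ∀ q ∉ K, W q = 0) :
    Integrable fun q : ℝ × ℝ => a q.2 * W q :=
  (continuous_mul_of_support hK hKl ha hW hW0).integrable_of_hasCompactSupport
    (HasCompactSupport.intro hK fun q hq => by simp [hW0 q hq])

theorem integrable_section {F : ℝ × ℝ → ℝ} (hK : IsCompact K) (hF : Continuous F)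
    (hF0 : ∀ q ∉ K, F q = 0) (x : ℝ) : Integrable fun y => F (x, y) := by
  refine Continuous.integrable_of_hasCompactSupport (by fun_prop) ?_
  refine HasCompactSupport.intro (hK.image continuous_snd) fun y hy => hF0 _ fun h => hy ?_
  exact ⟨(x, y), h, rfl⟩

theorem integrable_section' {F : ℝ × ℝ → ℝ} (hK : IsCompact K) (hF : Continuous F)
    (hF0 : ∀ q ∉ K, F q = 0) (y : ℝ) : Integrable fun x => F (x, y) := by
  refine Continuous.integrable_of_hasCompactSupport (by fun_prop) ?_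
  refine HasCompactSupport.intro (hK.image continuous_fst) fun x hx => hF0 _ fun h => hx ?_
  exact ⟨(x, y), h, rfl⟩

theorem integral_vert {a a' : ℝ → ℝ} {W Wy : ℝ × ℝ → ℝ} (hK : IsCompact K)
    (hKl : ∀ q ∈ K, q.2 ∈ Ioo (-l) l)
    (ha : ∀ y ∈ Ioo (-l) l, HasDerivAt a (a' y) y) (ha' : ∀ y ∈ Ioo (-l) l, ContinuousAt a' y)
    (hW : Continuous W) (hW0 : ∀ q ∉ K, W q = 0) (hWy : Continuous Wy)
    (hWy0 : ∀ q ∉ K, Wy q = 0)
    (hd : ∀ x y, HasDerivAt (fun y => W (x, y)) (Wy (x, y)) y) :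
    ∫ q : ℝ × ℝ, (a' q.2 * W q + a q.2 * Wy q) = 0 := by
  have hac : ∀ y ∈ Ioo (-l) l, ContinuousAt a y := fun y hy => (ha y hy).continuousAt
  have c1 := continuous_mul_of_support hK hKl ha' hW hW0
  have c2 := continuous_mul_of_support hK hKl hac hWy hWy0
  have c0 := continuous_mul_of_support hK hKl hac hW hW0
  have i1 := integrable_mul_of_support hK hKl ha' hW hW0
  have i2 := integrable_mul_of_support hK hKl hac hWy hWy0
  have i12 : Integrable (fun q : ℝ × ℝ => a' q.2 * W q + a q.2 * Wy q)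
      ((volume : Measure ℝ).prod volume) := by
    rw [← Measure.volume_eq_prod]
    exact i1.add i2
  rw [Measure.volume_eq_prod, integral_prod _ i12]
  have key : ∀ x : ℝ, ∫ y : ℝ, (a' y * W (x, y) + a y * Wy (x, y)) = 0 := by
    intro x
    refine integral_eq_zero_of_hasDerivAt_of_integrable (f := fun y => a y * W (x, y)) ?_ ?_ ?_
    · intro y
      by_cases hy : (x, y) ∈ K
      · exact (ha y (hKl _ hy)).mul (hd x y)
      · have h1 : ∀ᶠ z in 𝓝 y, (x, z) ∉ K := by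
          have hc : ContinuousAt (fun z : ℝ => (x, z)) y := by fun_prop
          exact hc.eventually (hK.isClosed.isOpen_compl.mem_nhds hy)
        have h2 : (fun z => a z * W (x, z)) =ᶠ[𝓝 y] fun _ => 0 := by
          filter_upwards [h1] with z hz
          rw [hW0 _ hz, mul_zero]
        rw [hW0 _ hy, hWy0 _ hy, mul_zero, mul_zero, add_zero]
        exact (hasDerivAt_const y (0 : ℝ)).congr_of_eventuallyEq h2
    · exact integrable_section hK (F := fun q => a' q.2 * W q + a q.2 * Wy q) (c1.add c2)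
        (fun q hq => by simp [hW0 q hq, hWy0 q hq]) x
    · exact integrable_section hK (F := fun q => a q.2 * W q) c0
        (fun q hq => by simp [hW0 q hq]) x
  simp only [key, integral_zero]

theorem integral_horiz {a : ℝ → ℝ} {W Wx : ℝ × ℝ → ℝ} (hK : IsCompact K)
    (hKl : ∀ q ∈ K, q.2 ∈ Ioo (-l) l) (ha : ∀ y ∈ Ioo (-l) l, ContinuousAt a y)
    (hW : Continuous W) (hW0 : ∀ q ∉ K, W q = 0) (hWx : Continuous Wx)
    (hWx0 : ∀ q ∉ K, Wx q = 0)
    (hd : ∀ x y, HasDerivAt (fun x => W (x, y)) (Wx (x, y)) x) :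
    ∫ q : ℝ × ℝ, a q.2 * Wx q = 0 := by
  have i1 := integrable_mul_of_support hK hKl ha hWx hWx0
  have i12 : Integrable (fun q : ℝ × ℝ => a q.2 * Wx q)
      ((volume : Measure ℝ).prod volume) := by
    rw [← Measure.volume_eq_prod]
    exact i1
  rw [Measure.volume_eq_prod, integral_prod_symm _ i12]
  have key : ∀ y : ℝ, ∫ x : ℝ, a y * Wx (x, y) = 0 := by
    intro y
    rw [integral_const_mul]
    have : ∫ x : ℝ, Wx (x, y) = 0 := by
      refine integral_eq_zero_of_hasDerivAt_of_integrable (f := fun x => W (x, y))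
        (fun x => hd x y) ?_ ?_
      · exact integrable_section' hK hWx hWx0 y
      · exact integrable_section' hK hW hW0 y
    rw [this, mul_zero]
  simp only [key, integral_zero]

end Aux

section Partials

variable {U : ℝ × ℝ → ℂ}

theorem contDiff_pA (hU : ContDiff ℝ (⊤ : ℕ∞) U) : ContDiff ℝ (⊤ : ℕ∞) (pd1 U) :=
  (hU.fderiv_right (m := (⊤ : ℕ∞)) (by simp)).clm_apply contDiff_const

theorem contDiff_pC (hU : ContDiff ℝ (⊤ : ℕ∞) U) : ContDiff ℝ (⊤ : ℕ∞) (pd2 U) :=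
  (hU.fderiv_right (m := (⊤ : ℕ∞)) (by simp)).clm_apply contDiff_const

theorem hasDerivAt_pA (hU : ContDiff ℝ (⊤ : ℕ∞) U) (x y : ℝ) :
    HasDerivAt (fun x => U (x, y)) (pd1 U (x, y)) x :=
  (hU.differentiable (by simp) (x, y)).hasFDerivAt.comp_hasDerivAt x
    ((hasDerivAt_id x).prodMk (hasDerivAt_const x y))

theorem hasDerivAt_pC (hU : ContDiff ℝ (⊤ : ℕ∞) U) (x y : ℝ) :
    HasDerivAt (fun y => U (x, y)) (pd2 U (x, y)) y :=
  (hU.differentiable (by simp) (x, y)).hasFDerivAt.comp_hasDerivAt y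
    ((hasDerivAt_const y x).prodMk (hasDerivAt_id y))

theorem fderiv_fderiv_apply (hU : ContDiff ℝ (⊤ : ℕ∞) U) (q v w : ℝ × ℝ) :
    fderiv ℝ (fun q => fderiv ℝ U q v) q w = fderiv ℝ (fderiv ℝ U) q w v := by
  have h1 : DifferentiableAt ℝ (fderiv ℝ U) q :=
    ((hU.fderiv_right (m := (⊤ : ℕ∞)) (by simp)).differentiable (by simp)) q
  have h2 := (h1.hasFDerivAt.clm_apply (hasFDerivAt_const v q)).fderiv
  rw [h2]
  simp

theorem mixed (hU : ContDiff ℝ (⊤ : ℕ∞) U) (q : ℝ × ℝ) : pd2 (pd1 U) q = pd1 (pd2 U) q := by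
  unfold pd2 pd1
  rw [fderiv_fderiv_apply hU, fderiv_fderiv_apply hU]
  have h : IsSymmSndFDerivAt ℝ U q :=
    ContDiffAt.isSymmSndFDerivAt (n := (⊤ : ℕ∞)) hU.contDiffAt (by
      simp only [minSmoothness_of_isRCLikeNormedField]
      exact WithTop.coe_le_coe.2 (le_top : (2 : ℕ∞) ≤ ⊤))
  exact h _ _

theorem pA_eq_zero {q : ℝ × ℝ} (hq : q ∉ tsupport U) : pd1 U q = 0 := by
  have : fderiv ℝ U q = 0 := by
    by_contra h
    exact hq (support_fderiv_subset ℝ (Function.mem_support.2 h))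
  simp [pd1, this]

theorem pC_eq_zero {q : ℝ × ℝ} (hq : q ∉ tsupport U) : pd2 U q = 0 := by
  have : fderiv ℝ U q = 0 := by
    by_contra h
    exact hq (support_fderiv_subset ℝ (Function.mem_support.2 h))
  simp [pd2, this]

theorem tsupport_pC_subset : tsupport (pd2 U) ⊆ tsupport U := by
  refine closure_minimal ?_ (isClosed_tsupport _)
  intro q hq
  by_contra h
  exact hq (pC_eq_zero h)

theorem pA_pC_eq_zero {q : ℝ × ℝ} (hq : q ∉ tsupport U) : pd1 (pd2 U) q = 0 :=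
  pA_eq_zero fun h => hq (tsupport_pC_subset h)

end Partials

theorem hasDerivAt_re {f : ℝ → ℂ} {f' : ℂ} {x : ℝ} (h : HasDerivAt f f' x) :
    HasDerivAt (fun x => (f x).re) f'.re x :=
  Complex.reCLM.hasFDerivAt.comp_hasDerivAt x h

theorem hasDerivAt_im {f : ℝ → ℂ} {f' : ℂ} {x : ℝ} (h : HasDerivAt f f' x) :
    HasDerivAt (fun x => (f x).im) f'.im x :=
  Complex.imCLM.hasFDerivAt.comp_hasDerivAt x h

theorem quad {κ G s a1 a2 d1 d2 : ℝ} (hs : 0 < s) (hκ0 : 0 ≤ κ) (hκ1 : κ ≤ 1) (hG : |G| ≤ κ) :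
    0 ≤ κ * ((a1 ^ 2 + a2 ^ 2) / s) + s * (d1 ^ 2 + d2 ^ 2) + 2 * G * (a2 * d1 - a1 * d2) := by
  have h1 : 2 * |a2 * d1 - a1 * d2| ≤ (a1 ^ 2 + a2 ^ 2) / s + s * (d1 ^ 2 + d2 ^ 2) := by
    rw [← sub_nonneg]
    have e1 : 2 * (a2 * d1 - a1 * d2) ≤ (a1 ^ 2 + a2 ^ 2) / s + s * (d1 ^ 2 + d2 ^ 2) := by
      rw [div_add' _ _ _ hs.ne', le_div_iff₀ hs]
      nlinarith [sq_nonneg (a2 - s * d1), sq_nonneg (a1 + s * d2)]
    have e2 : -(2 * (a2 * d1 - a1 * d2)) ≤ (a1 ^ 2 + a2 ^ 2) / s + s * (d1 ^ 2 + d2 ^ 2) := by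
      rw [div_add' _ _ _ hs.ne', le_div_iff₀ hs]
      nlinarith [sq_nonneg (a2 + s * d1), sq_nonneg (a1 - s * d2)]
    rcases abs_cases (a2 * d1 - a1 * d2) with ⟨h, _⟩ | ⟨h, _⟩ <;> rw [h] <;> linarith
  have h2 : -(2 * G * (a2 * d1 - a1 * d2)) ≤ κ * (2 * |a2 * d1 - a1 * d2|) := by
    calc -(2 * G * (a2 * d1 - a1 * d2)) ≤ |2 * G * (a2 * d1 - a1 * d2)| := neg_le_abs _
      _ = |G| * (2 * |a2 * d1 - a1 * d2|) := by
        rw [abs_mul, abs_mul, abs_two]
        ring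
      _ ≤ κ * (2 * |a2 * d1 - a1 * d2|) := by gcongr
  have h3 : κ * (2 * |a2 * d1 - a1 * d2|) ≤
      κ * ((a1 ^ 2 + a2 ^ 2) / s + s * (d1 ^ 2 + d2 ^ 2)) := by gcongr
  have h4 : 0 ≤ (1 - κ) * (s * (d1 ^ 2 + d2 ^ 2)) := by
    have : 0 ≤ 1 - κ := by linarith
    positivity
  nlinarith

/-- **The core inequality.** -/
theorem core {U : ℝ × ℝ → ℂ} (hU : ContDiff ℝ (⊤ : ℕ∞) U) (hK : IsCompact (tsupport U))
    {l : ℝ} (hKl : ∀ q ∈ tsupport U, q.2 ∈ Ioo (-l) l) {s E B δ : ℝ} (hs : 0 < s)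
    (hδ0 : 0 ≤ δ) (hδ1 : δ ≤ 1) {p G : ℝ → ℝ}
    (hp : ∀ y ∈ Ioo (-l) l, HasDerivAt p (B ^ 2 * y ^ 2 / s ^ 2 - E / s - p y ^ 2) y)
    (hG : ∀ y ∈ Ioo (-l) l, HasDerivAt G (-(2 * B * y / s) - 2 * p y * G y) y)
    (hG1 : ∀ y ∈ Ioo (-l) l, |G y| ≤ 1 - δ) :
    E * (∫ q, ‖U q‖ ^ 2) + δ / s * (∫ q, ‖pd1 U q‖ ^ 2) ≤
      s⁻¹ * (∫ q : ℝ × ℝ, ‖pd1 U q + Complex.I * B * q.2 * U q‖ ^ 2) +
        s * (∫ q, ‖pd2 U q‖ ^ 2) := by
  have hA := contDiff_pA hU
  have hC := contDiff_pC hU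
  have hM := contDiff_pA hC
  have cU := hU.continuous
  have cA := hA.continuous
  have cC := hC.continuous
  have cM := hM.continuous
  have zU : ∀ q ∉ tsupport U, U q = 0 := fun q hq => image_eq_zero_of_notMem_tsupport hq
  have zA : ∀ q ∉ tsupport U, pd1 U q = 0 := fun q hq => pA_eq_zero hq
  have zC : ∀ q ∉ tsupport U, pd2 U q = 0 := fun q hq => pC_eq_zero hq
  have zM : ∀ q ∉ tsupport U, pd1 (pd2 U) q = 0 := fun q hq => pA_pC_eq_zero hq
  have hpc : ∀ y ∈ Ioo (-l) l, ContinuousAt p y := fun y hy => (hp y hy).continuousAt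
  have hGc : ∀ y ∈ Ioo (-l) l, ContinuousAt G y := fun y hy => (hG y hy).continuousAt
  have hpc' : ∀ y ∈ Ioo (-l) l,
      ContinuousAt (fun y => B ^ 2 * y ^ 2 / s ^ 2 - E / s - p y ^ 2) y := by
    intro y hy
    have := hpc y hy
    fun_prop
  have hGc' : ∀ y ∈ Ioo (-l) l,
      ContinuousAt (fun y => -(2 * B * y / s) - 2 * p y * G y) y := by
    intro y hy
    have := hpc y hy
    have := hGc y hy
    fun_prop
  -- the three divergence terms
  have d1 := integral_vert (K := tsupport U) (a := p)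
    (a' := fun y => B ^ 2 * y ^ 2 / s ^ 2 - E / s - p y ^ 2)
    (W := fun q => (U q).re ^ 2 + (U q).im ^ 2)
    (Wy := fun q => 2 * ((U q).re * (pd2 U q).re + (U q).im * (pd2 U q).im)) hK hKl hp hpc'
    (by fun_prop) (fun q hq => by simp [zU q hq]) (by fun_prop) (fun q hq => by simp [zU q hq])
    (by
      intro x y
      have h1 := (hasDerivAt_re (hasDerivAt_pC hU x y)).pow 2
      have h2 := (hasDerivAt_im (hasDerivAt_pC hU x y)).pow 2
      refine (h1.add h2).congr_deriv ?_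
      push_cast
      ring)
  have d2 := integral_vert (K := tsupport U) (a := G)
    (a' := fun y => -(2 * B * y / s) - 2 * p y * G y)
    (W := fun q => (pd1 U q).im * (U q).re - (pd1 U q).re * (U q).im)
    (Wy := fun q => ((pd1 (pd2 U) q).im * (U q).re + (pd1 U q).im * (pd2 U q).re) -
      ((pd1 (pd2 U) q).re * (U q).im + (pd1 U q).re * (pd2 U q).im)) hK hKl hG hGc'
    (by fun_prop) (fun q hq => by simp [zU q hq]) (by fun_prop)
    (fun q hq => by simp [zU q hq, zA q hq])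
    (by
      intro x y
      have h1 := hasDerivAt_re (hasDerivAt_pC hU x y)
      have h2 := hasDerivAt_im (hasDerivAt_pC hU x y)
      have h3 := hasDerivAt_re (hasDerivAt_pC hA x y)
      have h4 := hasDerivAt_im (hasDerivAt_pC hA x y)
      rw [mixed hU] at h3 h4
      exact (h4.mul h1).sub (h3.mul h2))
  have d3 := integral_horiz (K := tsupport U) (a := G)
    (W := fun q => (pd2 U q).im * (U q).re - (pd2 U q).re * (U q).im)
    (Wx := fun q => ((pd1 (pd2 U) q).im * (U q).re + (pd2 U q).im * (pd1 U q).re) -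
      ((pd1 (pd2 U) q).re * (U q).im + (pd2 U q).re * (pd1 U q).im)) hK hKl hGc
    (by fun_prop) (fun q hq => by simp [zU q hq]) (by fun_prop)
    (fun q hq => by simp [zU q hq, zA q hq])
    (by
      intro x y
      have h1 := hasDerivAt_re (hasDerivAt_pA hU x y)
      have h2 := hasDerivAt_im (hasDerivAt_pA hU x y)
      have h3 := hasDerivAt_re (hasDerivAt_pA hC x y)
      have h4 := hasDerivAt_im (hasDerivAt_pA hC x y)
      exact (h4.mul h1).sub (h3.mul h2))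
  -- integrability
  have hint : ∀ F : ℝ × ℝ → ℝ, Continuous F → (∀ q ∉ tsupport U, F q = 0) → Integrable F :=
    fun F hF h0 => hF.integrable_of_hasCompactSupport (HasCompactSupport.intro hK h0)
  have i1 : Integrable fun q : ℝ × ℝ => ‖U q‖ ^ 2 :=
    hint _ (by fun_prop) fun q hq => by simp [zU q hq]
  have i2 : Integrable fun q : ℝ × ℝ => ‖pd1 U q‖ ^ 2 :=
    hint _ (by fun_prop) fun q hq => by simp [zA q hq]
  have i3 : Integrable fun q : ℝ × ℝ => ‖pd1 U q + Complex.I * B * q.2 * U q‖ ^ 2 :=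
    hint _ (by fun_prop) fun q hq => by simp [zA q hq, zU q hq]
  have i4 : Integrable fun q : ℝ × ℝ => ‖pd2 U q‖ ^ 2 :=
    hint _ (by fun_prop) fun q hq => by simp [zC q hq]
  have i5 := (integrable_mul_of_support (K := tsupport U)
    (a := fun y => B ^ 2 * y ^ 2 / s ^ 2 - E / s - p y ^ 2)
    (W := fun q => (U q).re ^ 2 + (U q).im ^ 2) hK hKl hpc' (by fun_prop)
    (fun q hq => by simp [zU q hq])).add (integrable_mul_of_support (K := tsupport U) (a := p)
    (W := fun q => 2 * ((U q).re * (pd2 U q).re + (U q).im * (pd2 U q).im)) hK hKl hpc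
    (by fun_prop) (fun q hq => by simp [zU q hq]))
  have i6 := (integrable_mul_of_support (K := tsupport U)
    (a := fun y => -(2 * B * y / s) - 2 * p y * G y)
    (W := fun q => (pd1 U q).im * (U q).re - (pd1 U q).re * (U q).im) hK hKl hGc' (by fun_prop)
    (fun q hq => by simp [zU q hq])).add (integrable_mul_of_support (K := tsupport U) (a := G)
    (W := fun q => ((pd1 (pd2 U) q).im * (U q).re + (pd1 U q).im * (pd2 U q).re) -
      ((pd1 (pd2 U) q).re * (U q).im + (pd1 U q).re * (pd2 U q).im)) hK hKl hGc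
    (by fun_prop) (fun q hq => by simp [zU q hq, zA q hq]))
  have i7 := integrable_mul_of_support (K := tsupport U) (a := G)
    (W := fun q => ((pd1 (pd2 U) q).im * (U q).re + (pd2 U q).im * (pd1 U q).re) -
      ((pd1 (pd2 U) q).re * (U q).im + (pd2 U q).re * (pd1 U q).im)) hK hKl hGc
    (by fun_prop) (fun q hq => by simp [zU q hq, zA q hq])
  -- the pointwise inequality
  have hpt : ∀ q : ℝ × ℝ, 0 ≤
      (s⁻¹ * ‖pd1 U q + Complex.I * B * q.2 * U q‖ ^ 2 + s * ‖pd2 U q‖ ^ 2 - E * ‖U q‖ ^ 2 -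
        δ / s * ‖pd1 U q‖ ^ 2) -
      s * ((B ^ 2 * q.2 ^ 2 / s ^ 2 - E / s - p q.2 ^ 2) * ((U q).re ^ 2 + (U q).im ^ 2) +
        p q.2 * (2 * ((U q).re * (pd2 U q).re + (U q).im * (pd2 U q).im))) +
      ((-(2 * B * q.2 / s) - 2 * p q.2 * G q.2) *
          ((pd1 U q).im * (U q).re - (pd1 U q).re * (U q).im) +
        G q.2 * (((pd1 (pd2 U) q).im * (U q).re + (pd1 U q).im * (pd2 U q).re) -
      ((pd1 (pd2 U) q).re * (U q).im + (pd1 U q).re * (pd2 U q).im))) -
      G q.2 * (((pd1 (pd2 U) q).im * (U q).re + (pd2 U q).im * (pd1 U q).re) -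
      ((pd1 (pd2 U) q).re * (U q).im + (pd2 U q).re * (pd1 U q).im)) := by
    intro q
    by_cases hq : q ∈ tsupport U
    · have hy := hKl q hq
      have hquad := quad (κ := 1 - δ) (G := G q.2) (s := s) (a1 := (pd1 U q).re)
        (a2 := (pd1 U q).im) (d1 := (pd2 U q).re - p q.2 * (U q).re)
        (d2 := (pd2 U q).im - p q.2 * (U q).im) hs (by linarith) (by linarith) (hG1 _ hy)
      have e1 : ‖pd1 U q + Complex.I * B * q.2 * U q‖ ^ 2 =
          ((pd1 U q).re - B * q.2 * (U q).im) ^ 2 + ((pd1 U q).im + B * q.2 * (U q).re) ^ 2 := by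
        rw [← Complex.normSq_eq_norm_sq, Complex.normSq_apply]
        simp
        ring
      have e2 : ‖pd2 U q‖ ^ 2 = (pd2 U q).re ^ 2 + (pd2 U q).im ^ 2 := by
        rw [← Complex.normSq_eq_norm_sq, Complex.normSq_apply]
        ring
      have e3 : ‖U q‖ ^ 2 = (U q).re ^ 2 + (U q).im ^ 2 := by
        rw [← Complex.normSq_eq_norm_sq, Complex.normSq_apply]
        ring
      have e4 : ‖pd1 U q‖ ^ 2 = (pd1 U q).re ^ 2 + (pd1 U q).im ^ 2 := by
        rw [← Complex.normSq_eq_norm_sq, Complex.normSq_apply]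
        ring
      rw [e1, e2, e3, e4]
      refine le_of_le_of_eq hquad ?_
      field_simp
      ring
    · simp [zU q hq, zA q hq, zC q hq]
  have hI : 0 ≤ ∫ q : ℝ × ℝ, ((s⁻¹ * ‖pd1 U q + Complex.I * B * q.2 * U q‖ ^ 2 + s * ‖pd2 U q‖ ^ 2 - E * ‖U q‖ ^ 2 -
        δ / s * ‖pd1 U q‖ ^ 2) -
      s * ((B ^ 2 * q.2 ^ 2 / s ^ 2 - E / s - p q.2 ^ 2) * ((U q).re ^ 2 + (U q).im ^ 2) +
        p q.2 * (2 * ((U q).re * (pd2 U q).re + (U q).im * (pd2 U q).im))) +
      ((-(2 * B * q.2 / s) - 2 * p q.2 * G q.2) *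
          ((pd1 U q).im * (U q).re - (pd1 U q).re * (U q).im) +
        G q.2 * (((pd1 (pd2 U) q).im * (U q).re + (pd1 U q).im * (pd2 U q).re) -
      ((pd1 (pd2 U) q).re * (U q).im + (pd1 U q).re * (pd2 U q).im))) -
      G q.2 * (((pd1 (pd2 U) q).im * (U q).re + (pd2 U q).im * (pd1 U q).re) -
      ((pd1 (pd2 U) q).re * (U q).im + (pd2 U q).re * (pd1 U q).im))) := integral_nonneg hpt
  rw [integral_sub, integral_add, integral_sub, integral_const_mul s, d1, d2, d3,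
    integral_sub, integral_sub, integral_add, integral_const_mul, integral_const_mul,
    integral_const_mul, integral_const_mul] at hI
  · linarith
  · exact i3.const_mul _
  · exact i4.const_mul _
  · exact (i3.const_mul _).add (i4.const_mul _)
  · exact i1.const_mul _
  · exact ((i3.const_mul _).add (i4.const_mul _)).sub (i1.const_mul _)
  · exact i2.const_mul _
  · exact (((i3.const_mul _).add (i4.const_mul _)).sub (i1.const_mul _)).sub (i2.const_mul _)
  · exact i5.const_mul _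
  · exact ((((i3.const_mul _).add (i4.const_mul _)).sub (i1.const_mul _)).sub
      (i2.const_mul _)).sub (i5.const_mul _)
  · exact i6
  · exact (((((i3.const_mul _).add (i4.const_mul _)).sub (i1.const_mul _)).sub
      (i2.const_mul _)).sub (i5.const_mul _)).add i6
  · exact i7

end Pool.Agent.Lib.MP_0fe113_an
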