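import Mathlib

/-! The even solution of `v'' = 2 b y v' - d v` by its power series. -/

namespace Pool.Agent.Lib.MP_0fe113_an

open Nat

/-- coefficients of the even power series solution -/
noncomputable def cf (b d : ℝ) : ℕ → ℝ
  | 0 => 1
  | k + 1 => (4 * b * k - d) / ((2 * k + 1) * (2 * k + 2)) * cf b d k

theorem cf_succ (b d : ℝ) (k : ℕ) :
    cf b d (k + 1) = (4 * b * k - d) / ((2 * k + 1) * (2 * k + 2)) * cf b d k := rfl

theorem abs_cf_le (b d : ℝ) (k : ℕ) : |cf b d k| ≤ (4 * |b| + |d|) ^ k / k ! := by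
  induction k with
  | zero => simp [cf]
  | succ k ih =>
    rw [cf_succ, abs_mul, abs_div, _root_.pow_succ, Nat.factorial_succ]
    push_cast
    have hk : (0 : ℝ) ≤ k := Nat.cast_nonneg k
    have h1 : |4 * b * k - d| ≤ (4 * |b| + |d|) * (k + 1) := by
      calc |4 * b * k - d| ≤ |4 * b * k| + |d| := abs_sub _ _
        _ = 4 * |b| * k + |d| := by rw [abs_mul, abs_mul, abs_of_nonneg hk]; norm_num
        _ ≤ (4 * |b| + |d|) * (k + 1) := by nlinarith [abs_nonneg b, abs_nonneg d]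
    have h2 : |(2 * (k : ℝ) + 1) * (2 * k + 2)| = (2 * (k : ℝ) + 1) * (2 * k + 2) :=
      abs_of_nonneg (by positivity)
    rw [h2]
    have hM : (0 : ℝ) ≤ 4 * |b| + |d| := by positivity
    calc |4 * b * k - d| / ((2 * k + 1) * (2 * k + 2)) * |cf b d k|
        ≤ ((4 * |b| + |d|) * (k + 1)) / ((2 * k + 1) * (2 * k + 2)) *
          ((4 * |b| + |d|) ^ k / k !) := by gcongr
      _ ≤ ((4 * |b| + |d|) / (k + 1)) * ((4 * |b| + |d|) ^ k / k !) := by
          refine mul_le_mul_of_nonneg_right ?_ (by positivity)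
          rw [div_le_div_iff₀ (by positivity) (by positivity)]
          nlinarith [mul_nonneg hM hk, mul_nonneg (mul_nonneg hM hk) hk]
      _ = (4 * |b| + |d|) ^ k * (4 * |b| + |d|) / ((k + 1) * k !) := by
          field_simp

theorem four_sq_le (n : ℕ) : (4 : ℝ) * n ^ 2 ≤ 8 ^ n * 1 := by
  induction n with
  | zero => simp
  | succ n ih =>
    rcases Nat.eq_zero_or_pos n with rfl | hn
    · norm_num
    · have h1 : (1 : ℝ) ≤ n := by exact_mod_cast hn
      push_cast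
      have h2 : (8 : ℝ) ^ (n + 1) = 8 ^ n * 8 := _root_.pow_succ _ _
      rw [h2]
      nlinarith

/-- the summable majorant -/
theorem summable_maj (b d R : ℝ) :
    Summable fun n : ℕ => 8 ^ n * ((4 * |b| + |d|) ^ n / n !) * (R ^ 2) ^ n := by
  have h := Real.summable_pow_div_factorial (8 * (4 * |b| + |d|) * R ^ 2)
  refine h.congr fun n => ?_
  rw [mul_pow, mul_pow]
  ring

/-- the value -/
noncomputable def V0 (b d y : ℝ) : ℝ := ∑' n : ℕ, cf b d n * y ^ (2 * n)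

/-- the derivative -/
noncomputable def V1 (b d y : ℝ) : ℝ := ∑' n : ℕ, cf b d n * ((2 * n : ℕ) * y ^ (2 * n - 1))

/-- the second derivative -/
noncomputable def V2 (b d y : ℝ) : ℝ :=
  ∑' n : ℕ, cf b d n * ((2 * n : ℕ) * ((2 * n - 1 : ℕ) * y ^ (2 * n - 1 - 1)))

theorem bound0 {b d y R : ℝ} (hR : 1 ≤ R) (hy : |y| ≤ R) (n : ℕ) :
    ‖cf b d n * y ^ (2 * n)‖ ≤ 8 ^ n * ((4 * |b| + |d|) ^ n / n !) * (R ^ 2) ^ n := by
  rw [norm_mul, norm_pow, Real.norm_eq_abs, Real.norm_eq_abs, ← pow_mul]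
  have h1 := abs_cf_le b d n
  have h2 : |y| ^ (2 * n) ≤ R ^ (2 * n) := pow_le_pow_left₀ (abs_nonneg _) hy _
  have h3 : (1 : ℝ) ≤ 8 ^ n := one_le_pow₀ (by norm_num)
  have h4 : 0 ≤ (4 * |b| + |d|) ^ n / n ! := by positivity
  calc |cf b d n| * |y| ^ (2 * n) ≤ ((4 * |b| + |d|) ^ n / n !) * R ^ (2 * n) := by gcongr
    _ ≤ 8 ^ n * ((4 * |b| + |d|) ^ n / n !) * R ^ (2 * n) := by
      have : (4 * |b| + |d|) ^ n / n ! ≤ 8 ^ n * ((4 * |b| + |d|) ^ n / n !) :=
        le_mul_of_one_le_left h4 h3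
      gcongr

theorem bound1 {b d y R : ℝ} (hR : 1 ≤ R) (hy : |y| ≤ R) (n : ℕ) :
    ‖cf b d n * ((2 * n : ℕ) * y ^ (2 * n - 1))‖ ≤
      8 ^ n * ((4 * |b| + |d|) ^ n / n !) * (R ^ 2) ^ n := by
  rw [norm_mul, norm_mul, norm_pow, Real.norm_eq_abs, Real.norm_eq_abs, Real.norm_eq_abs,
    ← pow_mul]
  have h1 := abs_cf_le b d n
  have h2 : |y| ^ (2 * n - 1) ≤ R ^ (2 * n) :=
    (pow_le_pow_left₀ (abs_nonneg _) hy _).trans (pow_le_pow_right₀ hR (by omega))
  have h3 : |((2 * n : ℕ) : ℝ)| ≤ 8 ^ n := by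
    rw [Nat.abs_cast]
    have := four_sq_le n
    rcases Nat.eq_zero_or_pos n with rfl | hn
    · norm_num
    · have h1 : (1 : ℝ) ≤ n := by exact_mod_cast hn
      push_cast
      nlinarith
  calc |cf b d n| * (|((2 * n : ℕ) : ℝ)| * |y| ^ (2 * n - 1))
      ≤ ((4 * |b| + |d|) ^ n / n !) * (8 ^ n * R ^ (2 * n)) := by gcongr
    _ = _ := by ring

theorem bound2 {b d y R : ℝ} (hR : 1 ≤ R) (hy : |y| ≤ R) (n : ℕ) :
    ‖cf b d n * ((2 * n : ℕ) * ((2 * n - 1 : ℕ) * y ^ (2 * n - 1 - 1)))‖ ≤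
      8 ^ n * ((4 * |b| + |d|) ^ n / n !) * (R ^ 2) ^ n := by
  rw [norm_mul, norm_mul, norm_mul, norm_pow, Real.norm_eq_abs, Real.norm_eq_abs,
    Real.norm_eq_abs, Real.norm_eq_abs, ← pow_mul]
  have h1 := abs_cf_le b d n
  have h2 : |y| ^ (2 * n - 1 - 1) ≤ R ^ (2 * n) :=
    (pow_le_pow_left₀ (abs_nonneg _) hy _).trans (pow_le_pow_right₀ hR (by omega))
  have h3 : |((2 * n : ℕ) : ℝ)| * |((2 * n - 1 : ℕ) : ℝ)| ≤ 8 ^ n := by
    rw [Nat.abs_cast, Nat.abs_cast]
    have := four_sq_le n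
    have h5 : ((2 * n - 1 : ℕ) : ℝ) ≤ 2 * n := by
      have : 2 * n - 1 ≤ 2 * n := Nat.sub_le _ _
      exact_mod_cast this
    have h6 : (0 : ℝ) ≤ n := Nat.cast_nonneg n
    calc ((2 * n : ℕ) : ℝ) * ((2 * n - 1 : ℕ) : ℝ) ≤ (2 * n) * (2 * n) := by
          push_cast
          gcongr
      _ = 4 * n ^ 2 := by ring
      _ ≤ 8 ^ n := by linarith
  calc |cf b d n| * (|((2 * n : ℕ) : ℝ)| * (|((2 * n - 1 : ℕ) : ℝ)| * |y| ^ (2 * n - 1 - 1)))
      = |cf b d n| * ((|((2 * n : ℕ) : ℝ)| * |((2 * n - 1 : ℕ) : ℝ)|) * |y| ^ (2 * n - 1 - 1)) := by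
        ring
    _ ≤ ((4 * |b| + |d|) ^ n / n !) * (8 ^ n * R ^ (2 * n)) := by gcongr
    _ = _ := by ring

theorem hasDerivAt_V0 (b d y : ℝ) : HasDerivAt (V0 b d) (V1 b d y) y := by
  have hR : (1 : ℝ) ≤ |y| + 1 := by linarith [abs_nonneg y]
  have hy : y ∈ Metric.ball (0 : ℝ) (|y| + 1) := by simp
  refine hasDerivAt_tsum_of_isPreconnected (g := fun n z => cf b d n * z ^ (2 * n))
    (g' := fun n z => cf b d n * ((2 * n : ℕ) * z ^ (2 * n - 1)))
    (summable_maj b d (|y| + 1)) Metric.isOpen_ball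
    (convex_ball _ _).isPreconnected ?_ ?_ hy ?_ hy
  · intro n z _
    exact (hasDerivAt_pow (2 * n) z).const_mul _
  · intro n z hz
    exact bound1 hR (by have := mem_ball_zero_iff.1 hz; simpa using this.le) n
  · exact (Summable.of_norm_bounded (summable_maj b d (|y| + 1)) fun n => bound0 hR (by simp) n)

theorem hasDerivAt_V1' (b d y : ℝ) : HasDerivAt (V1 b d) (V2 b d y) y := by
  have hR : (1 : ℝ) ≤ |y| + 1 := by linarith [abs_nonneg y]
  have hy : y ∈ Metric.ball (0 : ℝ) (|y| + 1) := by simp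
  refine hasDerivAt_tsum_of_isPreconnected
    (g := fun n z => cf b d n * ((2 * n : ℕ) * z ^ (2 * n - 1)))
    (g' := fun n z => cf b d n * ((2 * n : ℕ) * ((2 * n - 1 : ℕ) * z ^ (2 * n - 1 - 1))))
    (summable_maj b d (|y| + 1)) Metric.isOpen_ball
    (convex_ball _ _).isPreconnected ?_ ?_ hy ?_ hy
  · intro n z _
    exact ((hasDerivAt_pow (2 * n - 1) z).const_mul _).const_mul _
  · intro n z hz
    exact bound2 hR (by have := mem_ball_zero_iff.1 hz; simpa using this.le) n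
  · exact (Summable.of_norm_bounded (summable_maj b d (|y| + 1)) fun n => bound1 hR (by simp) n)

theorem V2_eq (b d y : ℝ) : V2 b d y = 2 * b * y * V1 b d y - d * V0 b d y := by
  have hR : (1 : ℝ) ≤ |y| + 1 := by linarith [abs_nonneg y]
  have hy : |y| ≤ |y| + 1 := by linarith
  have s0 : Summable fun n : ℕ => cf b d n * y ^ (2 * n) :=
    Summable.of_norm_bounded (summable_maj b d (|y| + 1)) fun n => bound0 hR hy n
  have s1 : Summable fun n : ℕ => cf b d n * ((2 * n : ℕ) * y ^ (2 * n - 1)) :=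
    Summable.of_norm_bounded (summable_maj b d (|y| + 1)) fun n => bound1 hR hy n
  have s2 : Summable fun n : ℕ =>
      cf b d n * ((2 * n : ℕ) * ((2 * n - 1 : ℕ) * y ^ (2 * n - 1 - 1))) :=
    Summable.of_norm_bounded (summable_maj b d (|y| + 1)) fun n => bound2 hR hy n
  unfold V2 V1 V0
  rw [s2.tsum_eq_zero_add, ← tsum_mul_left, ← tsum_mul_left, ← Summable.tsum_sub
    (s1.mul_left _) (s0.mul_left _)]
  simp only [Nat.cast_zero, zero_mul, mul_zero, zero_add]
  refine tsum_congr fun n => ?_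
  rw [cf_succ]
  have e1 : 2 * (n + 1) - 1 = 2 * n + 1 := by omega
  have e2 : 2 * n + 1 - 1 = 2 * n := by omega
  rw [e1, e2]
  push_cast
  have h0 : (2 * (n : ℝ) + 1) ≠ 0 := by positivity
  have h00 : (2 * (n : ℝ) + 2) ≠ 0 := by positivity
  rcases Nat.eq_zero_or_pos n with rfl | hn
  · simp
    field_simp
  · have e3 : y ^ (2 * n) = y * y ^ (2 * n - 1) := by
      rw [← _root_.pow_succ']
      congr 1
      omega
    rw [e3]
    field_simp
    ring

theorem hasDerivAt_V1 (b d y : ℝ) :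
    HasDerivAt (V1 b d) (2 * b * y * V1 b d y - d * V0 b d y) y := by
  rw [← V2_eq]
  exact hasDerivAt_V1' b d y

theorem V0_zero (b d : ℝ) : V0 b d 0 = 1 := by
  unfold V0
  rw [tsum_eq_single 0]
  · simp [cf]
  · intro n hn
    have : 2 * n ≠ 0 := by omega
    simp [this]

theorem V1_zero (b d : ℝ) : V1 b d 0 = 0 := by
  unfold V1
  rw [show (fun n : ℕ => cf b d n * ((2 * n : ℕ) * (0 : ℝ) ^ (2 * n - 1))) = fun _ => 0 from ?_]
  · simp
  · funext n
    rcases Nat.eq_zero_or_pos n with rfl | hn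
    · simp
    · have : 2 * n - 1 ≠ 0 := by omega
      simp [this]

theorem cf_d_zero (b : ℝ) (k : ℕ) : cf b 0 (k + 1) = 0 := by
  induction k with
  | zero => simp [cf]
  | succ k ih => rw [cf_succ, ih, mul_zero]

theorem V0_d_zero (b y : ℝ) : V0 b 0 y = 1 := by
  unfold V0
  rw [tsum_eq_single 0]
  · simp [cf]
  · intro n hn
    obtain ⟨k, rfl⟩ := Nat.exists_eq_succ_of_ne_zero hn
    rw [Nat.succ_eq_add_one, cf_d_zero, zero_mul]

theorem V0_neg (b d y : ℝ) : V0 b d (-y) = V0 b d y := by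
  unfold V0
  refine tsum_congr fun n => ?_
  rw [Even.neg_pow ⟨n, by ring⟩]

theorem V1_neg (b d y : ℝ) : V1 b d (-y) = -V1 b d y := by
  have h1 : HasDerivAt (fun z => V0 b d (-z)) (-V1 b d (-y)) y := by
    have := (hasDerivAt_V0 b d (-y)).comp y (hasDerivAt_neg y)
    rw [mul_neg_one] at this
    exact this
  have h2 : HasDerivAt (fun z => V0 b d (-z)) (V1 b d y) y := by
    have : (fun z => V0 b d (-z)) = V0 b d := funext fun z => V0_neg b d z
    rw [this]
    exact hasDerivAt_V0 b d y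
  have := h1.unique h2
  linarith

theorem contDiff_V (b d : ℝ) (n : ℕ) : ContDiff ℝ n (V0 b d) ∧ ContDiff ℝ n (V1 b d) := by
  induction n with
  | zero =>
    simp only [Nat.cast_zero, contDiff_zero]
    exact ⟨continuous_iff_continuousAt.2 fun y => (hasDerivAt_V0 b d y).continuousAt,
      continuous_iff_continuousAt.2 fun y => (hasDerivAt_V1 b d y).continuousAt⟩
  | succ n ih =>
    have e0 : deriv (V0 b d) = V1 b d := funext fun y => (hasDerivAt_V0 b d y).deriv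
    have e1 : deriv (V1 b d) = fun y => 2 * b * y * V1 b d y - d * V0 b d y :=
      funext fun y => (hasDerivAt_V1 b d y).deriv
    push_cast
    constructor
    · rw [contDiff_succ_iff_deriv]
      refine ⟨fun y => (hasDerivAt_V0 b d y).differentiableAt, by simp, ?_⟩
      rw [e0]
      exact ih.2
    · rw [contDiff_succ_iff_deriv]
      refine ⟨fun y => (hasDerivAt_V1 b d y).differentiableAt, by simp, ?_⟩
      rw [e1]
      exact ((contDiff_const.mul contDiff_id).mul ih.2).sub (contDiff_const.mul ih.1)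

theorem contDiff_V0 (b d : ℝ) : ContDiff ℝ (⊤ : ℕ∞) (V0 b d) :=
  contDiff_infty.2 fun n => (contDiff_V b d n).1

end Pool.Agent.Lib.MP_0fe113_an
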