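import Mathlib
import Pool.Agent.Lib.MP_0fe113_an.Ode

/-! The Riccati function of a positive solution and the auxiliary function `G`. -/

namespace Pool.Agent.Lib.MP_0fe113_an

open Set Real

/-- the weighted square of the solution -/
noncomputable def FF (b d y : ℝ) : ℝ := Real.exp (-b * y ^ 2) * V0 b d y ^ 2

/-- the integrand -/
noncomputable def hh (b d y : ℝ) : ℝ := -2 * Real.exp (-b * y ^ 2) * V0 b d y * V1 b d y

/-- the primitive -/
noncomputable def HH (b d l y : ℝ) : ℝ := FF b d l + ∫ s in y..l, hh b d s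

theorem hasDerivAt_gauss (b y : ℝ) :
    HasDerivAt (fun y : ℝ => Real.exp (-b * y ^ 2)) (Real.exp (-b * y ^ 2) * (-2 * b * y)) y := by
  have h1 : HasDerivAt (fun y : ℝ => -b * y ^ 2) (-2 * b * y) y := by
    have := (hasDerivAt_pow 2 y).const_mul (-b)
    refine this.congr_deriv ?_
    push_cast
    ring
  exact h1.exp

theorem continuous_V0 (b d : ℝ) : Continuous (V0 b d) := (contDiff_V0 b d).continuous

theorem continuous_V1 (b d : ℝ) : Continuous (V1 b d) :=
  continuous_iff_continuousAt.2 fun y => (hasDerivAt_V1 b d y).continuousAt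

theorem continuous_hh (b d : ℝ) : Continuous (hh b d) := by
  unfold hh
  have := continuous_V0 b d
  have := continuous_V1 b d
  fun_prop

theorem hasDerivAt_FF (b d y : ℝ) :
    HasDerivAt (FF b d) (-(2 * b * y) * FF b d y - hh b d y) y := by
  have h := (hasDerivAt_gauss b y).mul ((hasDerivAt_V0 b d y).pow 2)
  unfold FF hh
  refine h.congr_deriv ?_
  simp only [Pi.pow_apply]
  push_cast
  ring

theorem hasDerivAt_HH (b d l y : ℝ) : HasDerivAt (HH b d l) (-hh b d y) y := by
  have h := intervalIntegral.integral_hasDerivAt_left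
    ((continuous_hh b d).intervalIntegrable y l)
    ((continuous_hh b d).stronglyMeasurableAtFilter _ _) (continuous_hh b d).continuousAt
  exact h.const_add _

theorem FF_neg (b d y : ℝ) : FF b d (-y) = FF b d y := by
  unfold FF
  rw [V0_neg]
  simp

theorem hh_neg (b d y : ℝ) : hh b d (-y) = -hh b d y := by
  unfold hh
  rw [V0_neg, V1_neg]
  simp

theorem HH_neg (b d l y : ℝ) : HH b d l (-y) = HH b d l y := by
  unfold HH
  have h0 : ∫ s in (-y)..y, hh b d s = 0 := by
    have h1 : ∫ s in (-y)..y, hh b d (-s) = ∫ s in (-y)..y, hh b d s := by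
      rw [intervalIntegral.integral_comp_neg]
      simp
    simp only [hh_neg, intervalIntegral.integral_neg] at h1
    linarith
  have h2 : (∫ s in (-y)..y, hh b d s) + ∫ s in y..l, hh b d s = ∫ s in (-y)..l, hh b d s :=
    intervalIntegral.integral_add_adjacent_intervals
      ((continuous_hh b d).intervalIntegrable _ _) ((continuous_hh b d).intervalIntegrable _ _)
  rw [← h2, h0, zero_add]

theorem V1_nonpos {b d l : ℝ} (hd : 0 ≤ d)
    (hv : ∀ y ∈ Icc 0 l, 0 < V0 b d y) {y : ℝ} (hy : y ∈ Icc 0 l) : V1 b d y ≤ 0 := by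
  have hder : ∀ z : ℝ, HasDerivAt (fun z => Real.exp (-b * z ^ 2) * V1 b d z)
      (-(d * (Real.exp (-b * z ^ 2) * V0 b d z))) z := by
    intro z
    have h := (hasDerivAt_gauss b z).mul (hasDerivAt_V1 b d z)
    refine h.congr_deriv ?_
    ring
  have hanti : AntitoneOn (fun z => Real.exp (-b * z ^ 2) * V1 b d z) (Icc 0 l) := by
    refine antitoneOn_of_deriv_nonpos (convex_Icc _ _)
      (fun z _ => (hder z).continuousAt.continuousWithinAt)
      (fun z _ => (hder z).differentiableAt.differentiableWithinAt) ?_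
    intro z hz
    rw [interior_Icc] at hz
    rw [(hder z).deriv]
    have := hv z ⟨hz.1.le, hz.2.le⟩
    have : 0 ≤ d * (Real.exp (-b * z ^ 2) * V0 b d z) := by positivity
    linarith
  have h := hanti ⟨le_rfl, hy.1.trans hy.2⟩ hy hy.1
  simp only [V1_zero, mul_zero] at h
  have hpos := Real.exp_pos (-b * y ^ 2)
  by_contra hc
  push Not at hc
  have := mul_pos hpos hc
  linarith

theorem HH_le_FF {b d l : ℝ} (hb : 0 ≤ b) {y : ℝ} (hy : y ∈ Icc (-l) l) :
    HH b d l y ≤ FF b d y := by
  have key : ∀ y ∈ Icc 0 l, HH b d l y ≤ FF b d y := by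
    intro y hy
    have hder : ∀ z : ℝ, HasDerivAt (fun z => FF b d z - HH b d l z)
        (-(2 * b * z) * FF b d z) z := by
      intro z
      have h := (hasDerivAt_FF b d z).sub (hasDerivAt_HH b d l z)
      refine h.congr_deriv ?_
      ring
    have hanti : AntitoneOn (fun z => FF b d z - HH b d l z) (Icc 0 l) := by
      refine antitoneOn_of_deriv_nonpos (convex_Icc _ _)
        (fun z _ => (hder z).continuousAt.continuousWithinAt)
        (fun z _ => (hder z).differentiableAt.differentiableWithinAt) ?_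
      intro z hz
      rw [interior_Icc] at hz
      rw [(hder z).deriv]
      have h1 : 0 ≤ FF b d z := by unfold FF; positivity
      have h2 : 0 ≤ 2 * b * z := by have := hz.1.le; positivity
      nlinarith
    have h := hanti hy ⟨hy.1.trans hy.2, le_rfl⟩ hy.2
    have h0 : FF b d l - HH b d l l = 0 := by simp [HH]
    simp only [h0] at h
    linarith
  rcases le_total 0 y with h0 | h0
  · exact key y ⟨h0, hy.2⟩
  · have := key (-y) ⟨by linarith, by linarith [hy.1]⟩
    rwa [HH_neg, FF_neg] at this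

theorem le_HH {b d l : ℝ} (hb : 0 ≤ b) (hd : 0 ≤ d)
    (hv : ∀ y ∈ Icc 0 l, 0 < V0 b d y) {y : ℝ} (hy : y ∈ Icc (-l) l) :
    Real.exp (-b * l ^ 2) * V0 b d y ^ 2 ≤ HH b d l y := by
  have key : ∀ y ∈ Icc 0 l, Real.exp (-b * l ^ 2) * V0 b d y ^ 2 ≤ HH b d l y := by
    intro y hy
    have hder : ∀ z : ℝ, HasDerivAt (fun z => HH b d l z - Real.exp (-b * l ^ 2) * V0 b d z ^ 2)
        (2 * (Real.exp (-b * z ^ 2) - Real.exp (-b * l ^ 2)) * (V0 b d z * V1 b d z)) z := by
      intro z
      have h := (hasDerivAt_HH b d l z).sub (((hasDerivAt_V0 b d z).pow 2).const_mul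
        (Real.exp (-b * l ^ 2)))
      refine h.congr_deriv ?_
      unfold hh
      push_cast
      ring
    have hanti : AntitoneOn (fun z => HH b d l z - Real.exp (-b * l ^ 2) * V0 b d z ^ 2)
        (Icc 0 l) := by
      refine antitoneOn_of_deriv_nonpos (convex_Icc _ _)
        (fun z _ => (hder z).continuousAt.continuousWithinAt)
        (fun z _ => (hder z).differentiableAt.differentiableWithinAt) ?_
      intro z hz
      rw [interior_Icc] at hz
      rw [(hder z).deriv]
      have hz' : z ∈ Icc 0 l := ⟨hz.1.le, hz.2.le⟩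
      have h1 := hv z hz'
      have h2 := V1_nonpos hd hv hz'
      have h3 : Real.exp (-b * l ^ 2) ≤ Real.exp (-b * z ^ 2) := by
        apply Real.exp_le_exp.2
        have : z ^ 2 ≤ l ^ 2 := pow_le_pow_left₀ hz'.1 hz'.2 2
        nlinarith
      have h4 : V0 b d z * V1 b d z ≤ 0 := mul_nonpos_of_nonneg_of_nonpos h1.le h2
      have h5 : 0 ≤ 2 * (Real.exp (-b * z ^ 2) - Real.exp (-b * l ^ 2)) := by linarith
      exact mul_nonpos_of_nonneg_of_nonpos h5 h4
    have h := hanti hy ⟨hy.1.trans hy.2, le_rfl⟩ hy.2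
    have h0 : HH b d l l - Real.exp (-b * l ^ 2) * V0 b d l ^ 2 = 0 := by simp [HH, FF]
    simp only [h0] at h
    linarith
  rcases le_total 0 y with h0 | h0
  · exact key y ⟨h0, hy.2⟩
  · have := key (-y) ⟨by linarith, by linarith [hy.1]⟩
    rwa [HH_neg, V0_neg] at this

/-- A positive solution gives the Riccati data. -/
theorem exists_riccati {b d l : ℝ} (hb : 0 ≤ b) (hd : 0 ≤ d)
    (hv : ∀ y ∈ Icc 0 l, 0 < V0 b d y) :
    ∃ p G : ℝ → ℝ,
      (∀ y ∈ Icc (-l) l, HasDerivAt p (b ^ 2 * y ^ 2 - (b + d) - p y ^ 2) y) ∧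
      (∀ y ∈ Icc (-l) l, HasDerivAt G (-(2 * b * y) - 2 * p y * G y) y) ∧
      ∀ y ∈ Icc (-l) l, 0 ≤ G y ∧ G y ≤ 1 - Real.exp (-b * l ^ 2) := by
  have hv' : ∀ y ∈ Icc (-l) l, 0 < V0 b d y := by
    intro y hy
    rcases le_total 0 y with h0 | h0
    · exact hv y ⟨h0, hy.2⟩
    · rw [← V0_neg]
      exact hv (-y) ⟨by linarith, by linarith [hy.1]⟩
  refine ⟨fun y => V1 b d y / V0 b d y - b * y, fun y => 1 - HH b d l y / FF b d y,
    ?_, ?_, ?_⟩
  · intro y hy
    have h0 := (hv' y hy).ne'
    have h := ((hasDerivAt_V1 b d y).div (hasDerivAt_V0 b d y) h0).sub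
      ((hasDerivAt_id y).const_mul b)
    refine h.congr_deriv ?_
    field_simp
    ring
  · intro y hy
    have h0 := (hv' y hy).ne'
    have he := (Real.exp_pos (-b * y ^ 2)).ne'
    have hF : FF b d y ≠ 0 := by unfold FF; positivity
    have h := ((hasDerivAt_HH b d l y).div (hasDerivAt_FF b d y) hF).const_sub 1
    refine h.congr_deriv ?_
    have e1 : hh b d y = -2 * (V1 b d y / V0 b d y) * FF b d y := by
      unfold hh FF
      field_simp
    rw [e1]
    field_simp
    ring
  · intro y hy
    have h0 := hv' y hy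
    have he := Real.exp_pos (-b * y ^ 2)
    have hF : 0 < FF b d y := by unfold FF; positivity
    have h1 := HH_le_FF (b := b) (d := d) hb hy
    have h2 := le_HH hb hd hv hy
    constructor
    · rw [sub_nonneg, div_le_one hF]
      exact h1
    · have : Real.exp (-b * l ^ 2) ≤ HH b d l y / FF b d y := by
        rw [le_div_iff₀ hF]
        refine le_trans ?_ h2
        refine mul_le_mul_of_nonneg_left ?_ (Real.exp_pos _).le
        unfold FF
        have h3 : Real.exp (-b * y ^ 2) ≤ 1 := by
          apply Real.exp_le_one_iff.2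
          have : 0 ≤ b * y ^ 2 := by positivity
          linarith
        nlinarith [sq_nonneg (V0 b d y)]
      linarith

end Pool.Agent.Lib.MP_0fe113_an
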