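import Mathlib
import Pool.Agent.Lib.MP_0fe113_an.Riccati

/-! The one dimensional test functions. -/

namespace Pool.Agent.Lib.MP_0fe113_an

open MeasureTheory Set Filter Topology

/-- the cutoff function -/
noncomputable def chi (ε t : ℝ) : ℝ := ∫ τ in (0 : ℝ)..t, Real.smoothTransition ((τ - ε) / ε)

theorem continuous_st (ε : ℝ) : Continuous fun τ : ℝ => Real.smoothTransition ((τ - ε) / ε) :=
  Real.smoothTransition.continuous.comp (by fun_prop)

theorem hasDerivAt_chi (ε t : ℝ) :
    HasDerivAt (chi ε) (Real.smoothTransition ((t - ε) / ε)) t :=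
  intervalIntegral.integral_hasDerivAt_right ((continuous_st ε).intervalIntegrable _ _)
    ((continuous_st ε).stronglyMeasurableAtFilter _ _) (continuous_st ε).continuousAt

theorem contDiff_chi (ε : ℝ) : ContDiff ℝ (⊤ : ℕ∞) (chi ε) := by
  have hd : deriv (chi ε) = fun t => Real.smoothTransition ((t - ε) / ε) :=
    funext fun t => (hasDerivAt_chi ε t).deriv
  rw [contDiff_infty_iff_deriv]
  refine ⟨fun t => (hasDerivAt_chi ε t).differentiableAt, ?_⟩
  rw [hd]
  exact Real.smoothTransition.contDiff.comp ((contDiff_id.sub contDiff_const).div_const _)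

theorem chi_zero_of_le {ε t : ℝ} (hε : 0 < ε) (ht : t ≤ ε) : chi ε t = 0 := by
  unfold chi
  rw [intervalIntegral.integral_congr (g := fun _ => (0 : ℝ))]
  · simp
  · intro τ hτ
    have h1 : τ ≤ ε := hτ.2.trans (max_le hε.le ht)
    exact Real.smoothTransition.zero_of_nonpos
      (div_nonpos_of_nonpos_of_nonneg (by linarith) hε.le)

theorem chi_mono (ε : ℝ) : Monotone (chi ε) :=
  monotone_of_deriv_nonneg (fun t => (hasDerivAt_chi ε t).differentiableAt) fun t => by
    rw [(hasDerivAt_chi ε t).deriv]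
    exact Real.smoothTransition.nonneg _

theorem chi_nonneg {ε : ℝ} (hε : 0 < ε) (t : ℝ) : 0 ≤ chi ε t := by
  rcases le_total t 0 with h | h
  · rw [chi_zero_of_le hε (h.trans hε.le)]
  · rw [← chi_zero_of_le hε hε.le]
    exact chi_mono ε h

theorem chi_le {ε t : ℝ} (ht : 0 ≤ t) : chi ε t ≤ t := by
  have hm : Monotone fun t => t - chi ε t :=
    monotone_of_deriv_nonneg
      (fun t => ((hasDerivAt_id t).sub (hasDerivAt_chi ε t)).differentiableAt) fun t => by
      have := ((hasDerivAt_id t).sub (hasDerivAt_chi ε t)).deriv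
      have h2 : deriv (fun t => t - chi ε t) t = 1 - Real.smoothTransition ((t - ε) / ε) := this
      rw [h2, sub_nonneg]
      exact Real.smoothTransition.le_one _
  have h := hm ht
  have h0 : chi ε 0 = 0 := by simp [chi]
  simp only [h0] at h
  linarith

theorem le_chi {ε t : ℝ} (hε : 0 < ε) (ht : 2 * ε ≤ t) : t - 2 * ε ≤ chi ε t := by
  have h1 : chi ε (2 * ε) + ∫ τ in (2 * ε)..t, Real.smoothTransition ((τ - ε) / ε) = chi ε t :=
    intervalIntegral.integral_add_adjacent_intervals
      ((continuous_st ε).intervalIntegrable _ _) ((continuous_st ε).intervalIntegrable _ _)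
  have h2 : ∫ τ in (2 * ε)..t, Real.smoothTransition ((τ - ε) / ε) = t - 2 * ε := by
    rw [intervalIntegral.integral_congr (g := fun _ => (1 : ℝ))]
    · simp
    · intro τ hτ
      rw [uIcc_of_le ht] at hτ
      refine Real.smoothTransition.one_of_one_le ?_
      rw [le_div_iff₀ hε]
      linarith [hτ.1]
  rw [← h1, h2]
  linarith [chi_nonneg hε (2 * ε)]

theorem sq_chi_ge {ε t : ℝ} (hε : 0 < ε) (ht : 0 ≤ t) : t ^ 2 - 4 * ε * t ≤ chi ε t ^ 2 := by
  rcases le_total (2 * ε) t with h | h
  · have := le_chi hε h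
    nlinarith
  · nlinarith [sq_nonneg (chi ε t)]

/-- the profile on the square -/
noncomputable def gg (b d x : ℝ) : ℝ := Real.exp (-(b / 4) * x ^ 2) * V0 b d (x / √2)

/-- its derivative -/
noncomputable def gg' (b d x : ℝ) : ℝ :=
  Real.exp (-(b / 4) * x ^ 2) * (V1 b d (x / √2) / √2 - b / 2 * x * V0 b d (x / √2))

theorem hasDerivAt_gg (b d x : ℝ) : HasDerivAt (gg b d) (gg' b d x) x := by
  have h1 : HasDerivAt (fun x : ℝ => x / √2) (1 / √2) x := (hasDerivAt_id x).div_const _
  have h2 := (hasDerivAt_V0 b d (x / √2)).comp x h1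
  have h3 := (hasDerivAt_gauss (b / 4) x).mul h2
  refine h3.congr_deriv ?_
  unfold gg'
  simp only [Function.comp]
  ring

theorem hasDerivAt_gg' (b d x : ℝ) :
    HasDerivAt (gg' b d) ((b ^ 2 / 4 * x ^ 2 - (b + d) / 2) * gg b d x) x := by
  have h1 : HasDerivAt (fun x : ℝ => x / √2) (1 / √2) x := (hasDerivAt_id x).div_const _
  have h2 := (hasDerivAt_V0 b d (x / √2)).comp x h1
  have h4 := ((hasDerivAt_V1 b d (x / √2)).comp x h1).div_const (√2)
  have h5 := ((hasDerivAt_id x).const_mul (b / 2)).mul h2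
  have h3 := (hasDerivAt_gauss (b / 4) x).mul (h4.sub h5)
  refine h3.congr_deriv ?_
  unfold gg
  simp only [Function.comp, id, Pi.sub_apply, Pi.mul_apply]
  have hs : (√2 : ℝ) ^ 2 = 2 := Real.sq_sqrt (by norm_num)
  have hs0 : (√2 : ℝ) ≠ 0 := by positivity
  have e1 : (2 * b * (x / √2) * V1 b d (x / √2) - d * V0 b d (x / √2)) * (1 / √2) / √2 =
      (2 * b * (x / √2) * V1 b d (x / √2) - d * V0 b d (x / √2)) / 2 := by
    rw [mul_one_div, div_div, ← sq, hs]
  rw [e1]
  have e2 : V1 b d (x / √2) / √2 = V1 b d (x / √2) * (1 / √2) := by ring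
  rw [e2]
  field_simp
  ring

theorem contDiff_gg (b d : ℝ) : ContDiff ℝ (⊤ : ℕ∞) (gg b d) := by
  unfold gg
  exact (contDiff_const.mul (contDiff_id.pow 2)).exp.mul
    ((contDiff_V0 b d).comp (contDiff_id.div_const _))

theorem continuous_gg (b d : ℝ) : Continuous (gg b d) := (contDiff_gg b d).continuous

theorem continuous_gg' (b d : ℝ) : Continuous (gg' b d) :=
  continuous_iff_continuousAt.2 fun x => (hasDerivAt_gg' b d x).continuousAt

/-- the virial identity on `[-x₀, x₀]` -/
theorem virial (b d : ℝ) {x₀ : ℝ} (h1 : gg b d x₀ = 0) (h2 : gg b d (-x₀) = 0) :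
    (∫ x in (-x₀)..x₀, gg' b d x ^ 2) + b ^ 2 / 4 * (∫ x in (-x₀)..x₀, x ^ 2 * gg b d x ^ 2) =
      (b + d) / 2 * ∫ x in (-x₀)..x₀, gg b d x ^ 2 := by
  have c1 := continuous_gg b d
  have c2 := continuous_gg' b d
  have h := intervalIntegral.integral_eq_sub_of_hasDerivAt (a := -x₀) (b := x₀)
    (f := fun x => gg b d x * gg' b d x)
    (f' := fun x => gg' b d x * gg' b d x + gg b d x * ((b ^ 2 / 4 * x ^ 2 - (b + d) / 2) *
      gg b d x)) (fun x _ => (hasDerivAt_gg b d x).mul (hasDerivAt_gg' b d x))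
    (Continuous.intervalIntegrable (by fun_prop) _ _)
  rw [h1, h2] at h
  have e : (fun x => gg' b d x * gg' b d x + gg b d x * ((b ^ 2 / 4 * x ^ 2 - (b + d) / 2) *
      gg b d x)) = fun x => gg' b d x ^ 2 + b ^ 2 / 4 * (x ^ 2 * gg b d x ^ 2) -
        (b + d) / 2 * gg b d x ^ 2 := by
    funext x
    ring
  rw [e, intervalIntegral.integral_sub, intervalIntegral.integral_add,
    intervalIntegral.integral_const_mul, intervalIntegral.integral_const_mul] at h
  · linarith
  all_goals exact Continuous.intervalIntegrable (by fun_prop) _ _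

end Pool.Agent.Lib.MP_0fe113_an
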