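import Mathlib
import Pool.Agent.Lib.MP_0fe113_an.Defs
import Pool.Agent.Lib.MP_0fe113_an.Core
import Pool.Agent.Lib.MP_0fe113_an.Riccati

/-! The lower bound for test functions supported in a thin rectangle. -/

namespace Pool.Agent.Lib.MP_0fe113_an

open MeasureTheory Set Filter Topology

/-- the scaled version of `core` with Riccati data from the power series solution -/
theorem core_scaled {U : ℝ × ℝ → ℂ} (hU : ContDiff ℝ (⊤ : ℕ∞) U) (hK : IsCompact (tsupport U))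
    {l s : ℝ} (hs : 0 < s)
    (hKl : ∀ q ∈ tsupport U, q.2 ∈ Ioo (-(√s * l)) (√s * l)) {B d : ℝ} (hd : 0 ≤ d)
    (hv : ∀ y ∈ Icc 0 l, 0 < V0 |B| d y) :
    (|B| + d) * (∫ q, ‖U q‖ ^ 2) + Real.exp (-|B| * l ^ 2) / s * (∫ q, ‖pd1 U q‖ ^ 2) ≤
      s⁻¹ * (∫ q : ℝ × ℝ, ‖pd1 U q + Complex.I * B * q.2 * U q‖ ^ 2) +
        s * (∫ q, ‖pd2 U q‖ ^ 2) := by
  obtain ⟨p, G, hp, hG, hG1⟩ := exists_riccati (abs_nonneg B) hd hv
  obtain ⟨r, hrs⟩ : ∃ r : ℝ, √s = r := ⟨_, rfl⟩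
  have hr : 0 < r := by rw [← hrs]; exact Real.sqrt_pos.2 hs
  have hr2 : s = r ^ 2 := by rw [← hrs, Real.sq_sqrt hs.le]
  rw [hrs] at hKl
  clear hrs
  subst hr2
  have hmem : ∀ y ∈ Ioo (-(r * l)) (r * l), y / r ∈ Icc (-l) l := by
    intro y hy
    constructor
    · rw [le_div_iff₀ hr]
      nlinarith [hy.1]
    · rw [div_le_iff₀ hr]
      nlinarith [hy.2]
  have hin : ∀ y : ℝ, HasDerivAt (fun y : ℝ => y / r) (1 / r) y := fun y =>
    (hasDerivAt_id y).div_const _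
  obtain ⟨σ, hσ, hσ1⟩ : ∃ σ : ℝ, σ * |B| = B ∧ |σ| = 1 := by
    rcases le_total 0 B with h | h
    · exact ⟨1, by rw [abs_of_nonneg h, one_mul], abs_one⟩
    · exact ⟨-1, by rw [abs_of_nonpos h]; ring, by simp⟩
  refine core hU hK hKl hs (Real.exp_pos _).le ?_
    (p := fun y => p (y / r) / r) (G := fun y => σ * G (y / r)) ?_ ?_ ?_
  · apply Real.exp_le_one_iff.2
    have : 0 ≤ |B| * l ^ 2 := by positivity
    linarith
  · intro y hy
    have h := ((hp _ (hmem y hy)).comp y (hin y)).div_const r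
    refine h.congr_deriv ?_
    rw [sq_abs]
    field_simp
  · intro y hy
    have h := ((hG _ (hmem y hy)).comp y (hin y)).const_mul σ
    refine h.congr_deriv ?_
    conv_rhs => rw [← hσ]
    field_simp
  · intro y hy
    have h := hG1 _ (hmem y hy)
    rw [abs_mul, hσ1, one_mul, abs_of_nonneg h.1]
    exact h.2

/-- a Poincaré inequality in the first direction -/
theorem poincare {U : ℝ × ℝ → ℂ} (hU : ContDiff ℝ (⊤ : ℕ∞) U) (hK : IsCompact (tsupport U))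
    {m : ℝ} (hKm : ∀ q ∈ tsupport U, q.1 ∈ Ioo (-m) m) :
    ∫ q, ‖U q‖ ^ 2 ≤ 4 * m ^ 2 * ∫ q, ‖pd1 U q‖ ^ 2 := by
  have hA := contDiff_pA hU
  have cU := hU.continuous
  have cA := hA.continuous
  have zU : ∀ q ∉ tsupport U, U q = 0 := fun q hq => image_eq_zero_of_notMem_tsupport hq
  have zA : ∀ q ∉ tsupport U, pd1 U q = 0 := fun q hq => pA_eq_zero hq
  obtain ⟨l, hl⟩ : ∃ l : ℝ, ∀ q ∈ tsupport U, q.2 ∈ Ioo (-l) l := by
    obtain ⟨C, hC⟩ := hK.isBounded.exists_norm_le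
    refine ⟨C + 1, fun q hq => ?_⟩
    have h1 := (norm_snd_le q).trans (hC q hq)
    rw [Real.norm_eq_abs] at h1
    have := abs_le.1 h1
    exact ⟨by linarith [this.1], by linarith [this.2]⟩
  have hint : ∀ F : ℝ × ℝ → ℝ, Continuous F → (∀ q ∉ tsupport U, F q = 0) → Integrable F :=
    fun F hF h0 => hF.integrable_of_hasCompactSupport (HasCompactSupport.intro hK h0)
  have i1 : Integrable fun q : ℝ × ℝ => ‖U q‖ ^ 2 :=
    hint _ (by fun_prop) fun q hq => by simp [zU q hq]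
  have i2 : Integrable fun q : ℝ × ℝ => ‖pd1 U q‖ ^ 2 :=
    hint _ (by fun_prop) fun q hq => by simp [zA q hq]
  have d := integral_horiz (K := tsupport U) (a := fun _ => 1)
    (W := fun q => q.1 * ((U q).re ^ 2 + (U q).im ^ 2))
    (Wx := fun q => 1 * ((U q).re ^ 2 + (U q).im ^ 2) +
      q.1 * (2 * ((U q).re * (pd1 U q).re + (U q).im * (pd1 U q).im))) hK hl
    (fun _ _ => continuousAt_const)
    (by fun_prop) (fun q hq => by simp [zU q hq]) (by fun_prop)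
    (fun q hq => by simp [zU q hq])
    (by
      intro x y
      have h1 := (hasDerivAt_re (hasDerivAt_pA hU x y)).pow 2
      have h2 := (hasDerivAt_im (hasDerivAt_pA hU x y)).pow 2
      refine ((hasDerivAt_id x).mul (h1.add h2)).congr_deriv ?_
      simp only [Pi.add_apply, Pi.pow_apply, id]
      push_cast
      ring)
  simp only [one_mul] at d
  have hpt : ∀ q : ℝ × ℝ, 0 ≤ (((U q).re ^ 2 + (U q).im ^ 2) +
      q.1 * (2 * ((U q).re * (pd1 U q).re + (U q).im * (pd1 U q).im))) -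
      (2⁻¹ * ‖U q‖ ^ 2 - 2 * m ^ 2 * ‖pd1 U q‖ ^ 2) := by
    intro q
    by_cases hq : q ∈ tsupport U
    · have hy := hKm q hq
      have e3 : ‖U q‖ ^ 2 = (U q).re ^ 2 + (U q).im ^ 2 := by
        rw [← Complex.normSq_eq_norm_sq, Complex.normSq_apply]
        ring
      have e4 : ‖pd1 U q‖ ^ 2 = (pd1 U q).re ^ 2 + (pd1 U q).im ^ 2 := by
        rw [← Complex.normSq_eq_norm_sq, Complex.normSq_apply]
        ring
      rw [e3, e4]
      have hm : q.1 ^ 2 ≤ m ^ 2 := by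
        apply sq_le_sq'
        · exact hy.1.le
        · exact hy.2.le
      have h5 : q.1 ^ 2 * ((pd1 U q).re ^ 2 + (pd1 U q).im ^ 2) ≤
          m ^ 2 * ((pd1 U q).re ^ 2 + (pd1 U q).im ^ 2) := by
        gcongr
      nlinarith [sq_nonneg ((U q).re + 2 * q.1 * (pd1 U q).re),
        sq_nonneg ((U q).im + 2 * q.1 * (pd1 U q).im)]
    · simp [zU q hq, zA q hq]
  have hI : 0 ≤ ∫ q : ℝ × ℝ, ((((U q).re ^ 2 + (U q).im ^ 2) +
      q.1 * (2 * ((U q).re * (pd1 U q).re + (U q).im * (pd1 U q).im))) -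
      (2⁻¹ * ‖U q‖ ^ 2 - 2 * m ^ 2 * ‖pd1 U q‖ ^ 2)) := integral_nonneg hpt
  rw [integral_sub, d, integral_sub, integral_const_mul, integral_const_mul] at hI
  · linarith
  · exact i1.const_mul _
  · exact i2.const_mul _
  · exact hint _ (by fun_prop) fun q hq => by simp [zU q hq]
  · exact (i1.const_mul _).sub (i2.const_mul _)

/-- the gauge factor -/
noncomputable def gau (B : ℝ) (q : ℝ × ℝ) : ℂ :=
  Complex.exp (-(Complex.I * (B / 2) * (q.1 * q.2)))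

theorem norm_gau (B : ℝ) (q : ℝ × ℝ) : ‖gau B q‖ = 1 := by
  unfold gau
  have : -(Complex.I * (B / 2) * (q.1 * q.2)) = ((-(B / 2 * (q.1 * q.2)) : ℝ) : ℂ) * Complex.I := by
    push_cast
    ring
  rw [this, Complex.norm_exp_ofReal_mul_I]

theorem contDiff_gau (B : ℝ) : ContDiff ℝ (⊤ : ℕ∞) (gau B) := by
  unfold gau
  have h1 : ContDiff ℝ (⊤ : ℕ∞) fun q : ℝ × ℝ => ((q.1 : ℝ) : ℂ) :=
    Complex.ofRealCLM.contDiff.comp contDiff_fst
  have h2 : ContDiff ℝ (⊤ : ℕ∞) fun q : ℝ × ℝ => ((q.2 : ℝ) : ℂ) :=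
    Complex.ofRealCLM.contDiff.comp contDiff_snd
  exact ((contDiff_const.mul (h1.mul h2)).neg).cexp

/-- the gauge transformed function -/
noncomputable def gU (B : ℝ) (φ : ℝ × ℝ → ℂ) (q : ℝ × ℝ) : ℂ := gau B q * φ q

theorem contDiff_gU (B : ℝ) {φ : ℝ × ℝ → ℂ} (hφ : ContDiff ℝ (⊤ : ℕ∞) φ) :
    ContDiff ℝ (⊤ : ℕ∞) (gU B φ) := (contDiff_gau B).mul hφ

theorem tsupport_gU (B : ℝ) (φ : ℝ × ℝ → ℂ) : tsupport (gU B φ) ⊆ tsupport φ := by
  refine closure_mono fun q hq h => hq ?_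
  simp [gU, h]

theorem pd1_gU (B : ℝ) {φ : ℝ × ℝ → ℂ} (hφ : ContDiff ℝ (⊤ : ℕ∞) φ) (q : ℝ × ℝ) :
    pd1 (gU B φ) q = gau B q * (pd1 φ q - Complex.I * (B / 2) * q.2 * φ q) := by
  obtain ⟨x, y⟩ := q
  have h1 := hasDerivAt_pA (contDiff_gU B hφ) x y
  have h2 : HasDerivAt (fun x : ℝ => -(Complex.I * (B / 2) * ((x : ℂ) * (y : ℂ))))
      (-(Complex.I * (B / 2) * y)) x := by
    have := ((Complex.ofRealCLM.hasDerivAt (x := x)).mul_const (y : ℂ)).const_mul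
      (Complex.I * (B / 2))
    refine this.neg.congr_deriv ?_
    simp
  have h3 := h2.cexp.mul (hasDerivAt_pA hφ x y)
  have h4 := h1.unique h3
  rw [h4]
  simp only [gau]
  ring

theorem pd2_gU (B : ℝ) {φ : ℝ × ℝ → ℂ} (hφ : ContDiff ℝ (⊤ : ℕ∞) φ) (q : ℝ × ℝ) :
    pd2 (gU B φ) q = gau B q * (pd2 φ q - Complex.I * (B / 2) * q.1 * φ q) := by
  obtain ⟨x, y⟩ := q
  have h1 := hasDerivAt_pC (contDiff_gU B hφ) x y
  have h2 : HasDerivAt (fun y : ℝ => -(Complex.I * (B / 2) * ((x : ℂ) * (y : ℂ))))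
      (-(Complex.I * (B / 2) * x)) y := by
    have := ((Complex.ofRealCLM.hasDerivAt (x := y)).const_mul (x : ℂ)).const_mul
      (Complex.I * (B / 2))
    refine this.neg.congr_deriv ?_
    simp
  have h3 := h2.cexp.mul (hasDerivAt_pC hφ x y)
  have h4 := h1.unique h3
  rw [h4]
  simp only [gau]
  ring

/-- **Lower bound.** -/
theorem lower {φ : ℝ × ℝ → ℂ} (hφ : ContDiff ℝ (⊤ : ℕ∞) φ) (hK : IsCompact (tsupport φ))
    {l s m : ℝ} (hs : 0 < s) (hm : 0 < m)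
    (hKl : ∀ q ∈ tsupport φ, q.2 ∈ Ioo (-(√s * l)) (√s * l))
    (hKm : ∀ q ∈ tsupport φ, q.1 ∈ Ioo (-m) m) {B d : ℝ} (hd : 0 ≤ d)
    (hv : ∀ y ∈ Icc 0 l, 0 < V0 |B| d y) :
    (|B| + d + Real.exp (-|B| * l ^ 2) / (4 * m ^ 2 * s)) * (∫ q, ‖φ q‖ ^ 2) ≤
      s⁻¹ * (∫ q, ‖mag1 B φ (pd1 φ) q‖ ^ 2) + s * (∫ q, ‖mag2 B φ (pd2 φ) q‖ ^ 2) := by
  have hU := contDiff_gU B hφ
  have hts := tsupport_gU B φ
  have hKU : IsCompact (tsupport (gU B φ)) := hK.of_isClosed_subset (isClosed_tsupport _) hts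
  have h1 := core_scaled hU hKU hs (fun q hq => hKl q (hts hq)) hd hv
  have h2 := poincare hU hKU (fun q hq => hKm q (hts hq))
  have e0 : ∀ q, ‖gU B φ q‖ = ‖φ q‖ := fun q => by simp [gU, norm_gau]
  have e1 : ∀ q : ℝ × ℝ, ‖pd1 (gU B φ) q + Complex.I * B * q.2 * gU B φ q‖ =
      ‖mag1 B φ (pd1 φ) q‖ := by
    intro q
    have : pd1 (gU B φ) q + Complex.I * B * q.2 * gU B φ q =
        gau B q * mag1 B φ (pd1 φ) q := by
      rw [pd1_gU B hφ]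
      simp only [gU, mag1, A1]
      push_cast
      ring
    rw [this, norm_mul, norm_gau, one_mul]
  have e2 : ∀ q : ℝ × ℝ, ‖pd2 (gU B φ) q‖ = ‖mag2 B φ (pd2 φ) q‖ := by
    intro q
    have : pd2 (gU B φ) q = gau B q * mag2 B φ (pd2 φ) q := by
      rw [pd2_gU B hφ]
      simp only [mag2, A2]
      push_cast
      ring
    rw [this, norm_mul, norm_gau, one_mul]
  simp only [e0, e1, e2] at h1 h2
  have h3 : Real.exp (-|B| * l ^ 2) / (4 * m ^ 2 * s) * (∫ q, ‖φ q‖ ^ 2) ≤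
      Real.exp (-|B| * l ^ 2) / s * ∫ q, ‖pd1 (gU B φ) q‖ ^ 2 := by
    calc Real.exp (-|B| * l ^ 2) / (4 * m ^ 2 * s) * (∫ q, ‖φ q‖ ^ 2)
        ≤ Real.exp (-|B| * l ^ 2) / (4 * m ^ 2 * s) *
          (4 * m ^ 2 * ∫ q, ‖pd1 (gU B φ) q‖ ^ 2) := by gcongr
      _ = _ := by field_simp
  nlinarith

end Pool.Agent.Lib.MP_0fe113_an
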