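import Mathlib
import Pool.Agent.Lib.MP_0fe113_an.Defs
import Pool.Agent.Lib.MP_0fe113_an.Core
import Pool.Agent.Lib.MP_0fe113_an.Cut

/-! The upper bound: product test functions on the square. -/

namespace Pool.Agent.Lib.MP_0fe113_an

open MeasureTheory Set Filter Topology

section OneD

variable {b d x₀ a₁ ε : ℝ}

/-- the truncated profile -/
noncomputable def hc (b d x₀ ε x : ℝ) : ℝ := by
  classical
  exact if x ∈ Ioo (-x₀) x₀ then chi ε (gg b d x) else 0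

/-- its derivative -/
noncomputable def hc' (b d x₀ ε x : ℝ) : ℝ := by
  classical
  exact if x ∈ Ioo (-x₀) x₀ then
    Real.smoothTransition ((gg b d x - ε) / ε) * gg' b d x else 0

theorem hc_in {x : ℝ} (hx : x ∈ Ioo (-x₀) x₀) : hc b d x₀ ε x = chi ε (gg b d x) := by
  simp only [hc, if_pos hx]

theorem hc_out {x : ℝ} (hx : x ∉ Ioo (-x₀) x₀) : hc b d x₀ ε x = 0 := by
  simp only [hc, if_neg hx]

theorem hc'_in {x : ℝ} (hx : x ∈ Ioo (-x₀) x₀) :
    hc' b d x₀ ε x = Real.smoothTransition ((gg b d x - ε) / ε) * gg' b d x := by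
  simp only [hc', if_pos hx]

theorem hc'_out {x : ℝ} (hx : x ∉ Ioo (-x₀) x₀) : hc' b d x₀ ε x = 0 := by
  simp only [hc', if_neg hx]

theorem hc_zero (hε : 0 < ε) (ha : ∀ x ∈ Ioo (-x₀) x₀, a₁ < |x| → gg b d x ≤ ε) {x : ℝ}
    (hx : a₁ < |x|) : hc b d x₀ ε x = 0 := by
  by_cases h : x ∈ Ioo (-x₀) x₀
  · rw [hc_in h]
    exact chi_zero_of_le hε (ha x h hx)
  · exact hc_out h

theorem hc_eventually_zero (hε : 0 < ε) (ha : ∀ x ∈ Ioo (-x₀) x₀, a₁ < |x| → gg b d x ≤ ε)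
    {x : ℝ} (hx : a₁ < |x|) : hc b d x₀ ε =ᶠ[𝓝 x] fun _ => 0 := by
  have : ∀ᶠ z in 𝓝 x, a₁ < |z| := (continuous_abs.continuousAt).eventually (lt_mem_nhds hx)
  filter_upwards [this] with z hz
  exact hc_zero hε ha hz

theorem hc_eventually_in {x : ℝ} (hx : x ∈ Ioo (-x₀) x₀) :
    hc b d x₀ ε =ᶠ[𝓝 x] fun z => chi ε (gg b d z) := by
  filter_upwards [isOpen_Ioo.mem_nhds hx] with z hz
  exact hc_in hz

theorem contDiff_hc (hε : 0 < ε) (ha1 : a₁ < x₀)
    (ha : ∀ x ∈ Ioo (-x₀) x₀, a₁ < |x| → gg b d x ≤ ε) :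
    ContDiff ℝ (⊤ : ℕ∞) (hc b d x₀ ε) := by
  rw [contDiff_iff_contDiffAt]
  intro x
  by_cases h : x ∈ Ioo (-x₀) x₀
  · exact (((contDiff_chi ε).comp (contDiff_gg b d)).contDiffAt).congr_of_eventuallyEq
      (hc_eventually_in h)
  · have hx : a₁ < |x| := by
      have : ¬ |x| < x₀ := fun h' => h (abs_lt.1 h')
      push Not at this
      linarith
    exact contDiffAt_const.congr_of_eventuallyEq (hc_eventually_zero hε ha hx)

theorem hasDerivAt_hc (hε : 0 < ε) (ha1 : a₁ < x₀)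
    (ha : ∀ x ∈ Ioo (-x₀) x₀, a₁ < |x| → gg b d x ≤ ε) (x : ℝ) :
    HasDerivAt (hc b d x₀ ε) (hc' b d x₀ ε x) x := by
  by_cases h : x ∈ Ioo (-x₀) x₀
  · rw [hc'_in h]
    exact ((hasDerivAt_chi ε _).comp x (hasDerivAt_gg b d x)).congr_of_eventuallyEq
      (hc_eventually_in h)
  · have hx : a₁ < |x| := by
      have : ¬ |x| < x₀ := fun h' => h (abs_lt.1 h')
      push Not at this
      linarith
    rw [hc'_out h]
    exact (hasDerivAt_const x (0 : ℝ)).congr_of_eventuallyEq (hc_eventually_zero hε ha hx)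

theorem integral_eq_interval {F G : ℝ → ℝ} (hx₀ : 0 ≤ x₀) (hF : ∀ x ∈ Ioo (-x₀) x₀, F x = G x)
    (hF0 : ∀ x ∉ Ioo (-x₀) x₀, F x = 0) : ∫ x, F x = ∫ x in (-x₀)..x₀, G x := by
  rw [← setIntegral_eq_integral_of_forall_compl_eq_zero (s := Ioo (-x₀) x₀)
    (fun x hx => hF0 x hx), intervalIntegral.integral_of_le (by linarith),
    integral_Ioc_eq_integral_Ioo]
  exact setIntegral_congr_fun measurableSet_Ioo hF

/-- the three one dimensional integrals -/
theorem oneD (hx₀ : 0 < x₀) :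
    (∫ x, hc' b d x₀ ε x ^ 2) ≤ ∫ x in (-x₀)..x₀, gg' b d x ^ 2 := by
  rw [integral_eq_interval (G := fun x =>
    (Real.smoothTransition ((gg b d x - ε) / ε) * gg' b d x) ^ 2) hx₀.le
    (fun x hx => by rw [hc'_in hx]) (fun x hx => by rw [hc'_out hx]; simp)]
  have c1 := continuous_gg b d
  have c2 := continuous_gg' b d
  have c3 : Continuous fun x => Real.smoothTransition ((gg b d x - ε) / ε) :=
    Real.smoothTransition.continuous.comp (by fun_prop)
  refine intervalIntegral.integral_mono_on (by linarith)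
    (Continuous.intervalIntegrable (by fun_prop) _ _)
    (Continuous.intervalIntegrable (by fun_prop) _ _) fun x _ => ?_
  rw [mul_pow]
  have h1 := Real.smoothTransition.nonneg ((gg b d x - ε) / ε)
  have h2 := Real.smoothTransition.le_one ((gg b d x - ε) / ε)
  nlinarith [sq_nonneg (gg' b d x), pow_le_one₀ h1 h2 (n := 2)]

theorem oneD_w (hx₀ : 0 < x₀) (hpos : ∀ x ∈ Ioo (-x₀) x₀, 0 ≤ gg b d x) (hε : 0 < ε) :
    (∫ x, x ^ 2 * hc b d x₀ ε x ^ 2) ≤ ∫ x in (-x₀)..x₀, x ^ 2 * gg b d x ^ 2 := by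
  rw [integral_eq_interval (G := fun x => x ^ 2 * chi ε (gg b d x) ^ 2) hx₀.le
    (fun x hx => by rw [hc_in hx]) (fun x hx => by rw [hc_out hx]; simp)]
  have c1 := continuous_gg b d
  have c3 : Continuous fun x => chi ε (gg b d x) := (contDiff_chi ε).continuous.comp c1
  refine intervalIntegral.integral_mono_on_of_le_Ioo (by linarith)
    (Continuous.intervalIntegrable (by fun_prop) _ _)
    (Continuous.intervalIntegrable (by fun_prop) _ _) fun x hx => ?_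
  have h1 := chi_nonneg hε (gg b d x)
  have h2 := chi_le (ε := ε) (hpos x hx)
  have h3 : chi ε (gg b d x) ^ 2 ≤ gg b d x ^ 2 := pow_le_pow_left₀ h1 h2 2
  nlinarith [sq_nonneg x]

theorem oneD_n (hx₀ : 0 < x₀) (hpos : ∀ x ∈ Ioo (-x₀) x₀, 0 ≤ gg b d x) (hε : 0 < ε) :
    (∫ x in (-x₀)..x₀, gg b d x ^ 2) - 4 * ε * (∫ x in (-x₀)..x₀, gg b d x) ≤
      ∫ x, hc b d x₀ ε x ^ 2 := by
  rw [integral_eq_interval (G := fun x => chi ε (gg b d x) ^ 2) hx₀.le
    (fun x hx => by rw [hc_in hx]) (fun x hx => by rw [hc_out hx]; simp)]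
  have c1 := continuous_gg b d
  have c3 : Continuous fun x => chi ε (gg b d x) := (contDiff_chi ε).continuous.comp c1
  rw [← intervalIntegral.integral_const_mul, ← intervalIntegral.integral_sub
    (Continuous.intervalIntegrable (by fun_prop) _ _)
    (Continuous.intervalIntegrable (by fun_prop) _ _)]
  refine intervalIntegral.integral_mono_on_of_le_Ioo (by linarith)
    (Continuous.intervalIntegrable (by fun_prop) _ _)
    (Continuous.intervalIntegrable (by fun_prop) _ _) fun x hx => ?_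
  have := sq_chi_ge hε (hpos x hx)
  linarith

end OneD

/-- the product of two real functions of one variable as a complex function -/
noncomputable def prodF (h : ℝ → ℝ) (q : ℝ × ℝ) : ℂ := ((h q.1 * h q.2 : ℝ) : ℂ)

section TwoD

variable {h h' : ℝ → ℝ} {a : ℝ}

theorem contDiff_prodF (hh : ContDiff ℝ (⊤ : ℕ∞) h) : ContDiff ℝ (⊤ : ℕ∞) (prodF h) :=
  Complex.ofRealCLM.contDiff.comp ((hh.comp contDiff_fst).mul (hh.comp contDiff_snd))

theorem prodF_zero (h0 : ∀ x, a < |x| → h x = 0) {q : ℝ × ℝ}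
    (hq : q ∉ Icc (-a) a ×ˢ Icc (-a) a) : prodF h q = 0 := by
  unfold prodF
  by_cases h1 : q.1 ∈ Icc (-a) a
  · have h2 : q.2 ∉ Icc (-a) a := fun h2 => hq ⟨h1, h2⟩
    have h3 : a < |q.2| := by
      by_contra hc
      push Not at hc
      exact h2 (abs_le.1 hc)
    rw [h0 _ h3]
    simp
  · have h3 : a < |q.1| := by
      by_contra hc
      push Not at hc
      exact h1 (abs_le.1 hc)
    rw [h0 _ h3]
    simp

theorem tsupport_prodF (h0 : ∀ x, a < |x| → h x = 0) :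
    tsupport (prodF h) ⊆ Icc (-a) a ×ˢ Icc (-a) a := by
  refine closure_minimal ?_ (isClosed_Icc.prod isClosed_Icc)
  intro q hq
  by_contra hc
  exact hq (prodF_zero h0 hc)

theorem compact_prodF (h0 : ∀ x, a < |x| → h x = 0) : HasCompactSupport (prodF h) :=
  (isCompact_Icc.prod isCompact_Icc).of_isClosed_subset (isClosed_tsupport _) (tsupport_prodF h0)

theorem pd1_prodF (hh : ContDiff ℝ (⊤ : ℕ∞) h) (hd : ∀ x, HasDerivAt h (h' x) x) (q : ℝ × ℝ) :
    pd1 (prodF h) q = ((h' q.1 * h q.2 : ℝ) : ℂ) := by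
  obtain ⟨x, y⟩ := q
  have h1 := hasDerivAt_pA (contDiff_prodF hh) x y
  have h2 : HasDerivAt (fun x => prodF h (x, y)) ((h' x * h y : ℝ) : ℂ) x :=
    ((hd x).mul_const (h y)).ofReal_comp
  exact h1.unique h2

theorem pd2_prodF (hh : ContDiff ℝ (⊤ : ℕ∞) h) (hd : ∀ x, HasDerivAt h (h' x) x) (q : ℝ × ℝ) :
    pd2 (prodF h) q = ((h q.1 * h' q.2 : ℝ) : ℂ) := by
  obtain ⟨x, y⟩ := q
  have h1 := hasDerivAt_pC (contDiff_prodF hh) x y
  have h2 : HasDerivAt (fun y => prodF h (x, y)) ((h x * h' y : ℝ) : ℂ) y :=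
    ((hd y).const_mul (h x)).ofReal_comp
  exact h1.unique h2

theorem norm_mag1_prodF (hh : ContDiff ℝ (⊤ : ℕ∞) h) (hd : ∀ x, HasDerivAt h (h' x) x)
    (B : ℝ) (q : ℝ × ℝ) : ‖mag1 B (prodF h) (pd1 (prodF h)) q‖ ^ 2 =
      h' q.1 ^ 2 * h q.2 ^ 2 + B ^ 2 / 4 * (h q.1 ^ 2 * (q.2 ^ 2 * h q.2 ^ 2)) := by
  unfold mag1
  rw [pd1_prodF hh hd]
  have : ((h' q.1 * h q.2 : ℝ) : ℂ) - Complex.I * (A1 B q : ℂ) * prodF h q =
      ((h' q.1 * h q.2 : ℝ) : ℂ) + ((B / 2 * q.2 * (h q.1 * h q.2) : ℝ) : ℂ) * Complex.I := by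
    unfold A1 prodF
    push_cast
    ring
  rw [this, ← Complex.normSq_eq_norm_sq, Complex.normSq_add_mul_I]
  ring

theorem norm_mag2_prodF (hh : ContDiff ℝ (⊤ : ℕ∞) h) (hd : ∀ x, HasDerivAt h (h' x) x)
    (B : ℝ) (q : ℝ × ℝ) : ‖mag2 B (prodF h) (pd2 (prodF h)) q‖ ^ 2 =
      h q.1 ^ 2 * h' q.2 ^ 2 + B ^ 2 / 4 * ((q.1 ^ 2 * h q.1 ^ 2) * h q.2 ^ 2) := by
  unfold mag2
  rw [pd2_prodF hh hd]
  have : ((h q.1 * h' q.2 : ℝ) : ℂ) - Complex.I * (A2 B q : ℂ) * prodF h q =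
      ((h q.1 * h' q.2 : ℝ) : ℂ) + ((-(B / 2 * q.1 * (h q.1 * h q.2)) : ℝ) : ℂ) * Complex.I := by
    unfold A2 prodF
    push_cast
    ring
  rw [this, ← Complex.normSq_eq_norm_sq, Complex.normSq_add_mul_I]
  ring

theorem norm_prodF (q : ℝ × ℝ) : ‖prodF h q‖ ^ 2 = h q.1 ^ 2 * h q.2 ^ 2 := by
  unfold prodF
  rw [← Complex.normSq_eq_norm_sq, Complex.normSq_ofReal]
  ring

theorem integrable_sq_of (hh : Continuous h) (h0 : ∀ x, a < |x| → h x = 0) :
    Integrable fun x => h x ^ 2 := by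
  refine Continuous.integrable_of_hasCompactSupport (by fun_prop) ?_
  refine HasCompactSupport.intro (isCompact_Icc (a := -a) (b := a)) fun x hx => ?_
  have : a < |x| := by
    by_contra hc
    push Not at hc
    exact hx (abs_le.1 hc)
  rw [h0 x this]
  simp

theorem integrals_prodF (hh : ContDiff ℝ (⊤ : ℕ∞) h) (hd : ∀ x, HasDerivAt h (h' x) x)
    (hh' : Continuous h') (h0 : ∀ x, a < |x| → h x = 0) (h0' : ∀ x, a < |x| → h' x = 0) (B : ℝ) :
    (∫ q, ‖prodF h q‖ ^ 2 = (∫ x, h x ^ 2) ^ 2) ∧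
    (∫ q, ‖mag1 B (prodF h) (pd1 (prodF h)) q‖ ^ 2 =
      (∫ x, h x ^ 2) * ((∫ x, h' x ^ 2) + B ^ 2 / 4 * ∫ x, x ^ 2 * h x ^ 2)) ∧
    (∫ q, ‖mag2 B (prodF h) (pd2 (prodF h)) q‖ ^ 2 =
      (∫ x, h x ^ 2) * ((∫ x, h' x ^ 2) + B ^ 2 / 4 * ∫ x, x ^ 2 * h x ^ 2)) := by
  have hc : Continuous h := hh.continuous
  have i1 := integrable_sq_of hc h0
  have i2 := integrable_sq_of hh' h0'
  have i3 : Integrable fun x => x ^ 2 * h x ^ 2 := by
    have := integrable_sq_of (h := fun x => x * h x) (a := a) (by fun_prop)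
      (fun x hx => by simp [h0 x hx])
    simpa [mul_pow] using this
  refine ⟨?_, ?_, ?_⟩
  · simp_rw [norm_prodF]
    rw [Measure.volume_eq_prod, integral_prod_mul (fun x => h x ^ 2) (fun x => h x ^ 2)]
    ring
  · simp_rw [norm_mag1_prodF hh hd]
    rw [Measure.volume_eq_prod, integral_add (i2.mul_prod i1) ((i1.mul_prod i3).const_mul _),
      integral_const_mul, integral_prod_mul (fun x => h' x ^ 2) (fun x => h x ^ 2),
      integral_prod_mul (fun x => h x ^ 2) (fun x => x ^ 2 * h x ^ 2)]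
    ring
  · simp_rw [norm_mag2_prodF hh hd]
    rw [Measure.volume_eq_prod, integral_add (i1.mul_prod i2) ((i3.mul_prod i1).const_mul _),
      integral_const_mul, integral_prod_mul (fun x => h x ^ 2) (fun x => h' x ^ 2),
      integral_prod_mul (fun x => x ^ 2 * h x ^ 2) (fun x => h x ^ 2)]
    ring

end TwoD

/-- **Upper bound.** -/
theorem upper {B d y₀ : ℝ} (hd : 0 ≤ d) (hy0 : 0 < y₀) (hyl : y₀ ^ 2 ≤ 1 / 8)
    (hz : V0 |B| d y₀ = 0) (hpos : ∀ y ∈ Ico 0 y₀, 0 < V0 |B| d y) {η : ℝ} (hη : 0 < η) :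
    ∃ φ : ℝ × ℝ → ℂ, IsTest (rect 1) φ ∧ 0 < ∫ q, ‖φ q‖ ^ 2 ∧
      (∫ q, ‖mag1 B φ (pd1 φ) q‖ ^ 2) ≤ (|B| + d + η) / 2 * ∫ q, ‖φ q‖ ^ 2 ∧
      (∫ q, ‖mag2 B φ (pd2 φ) q‖ ^ 2) ≤ (|B| + d + η) / 2 * ∫ q, ‖φ q‖ ^ 2 := by
  set b := |B| with hb
  have hb0 : 0 ≤ b := abs_nonneg _
  have hs2 : (√2 : ℝ) ^ 2 = 2 := Real.sq_sqrt (by norm_num)
  have hs0 : (0 : ℝ) < √2 := by positivity
  set x₀ := √2 * y₀ with hx0def
  have hx₀ : 0 < x₀ := by positivity
  have hx₀l : x₀ ≤ 1 / 2 := by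
    apply le_of_sq_le_sq _ (by norm_num)
    rw [hx0def, mul_pow, hs2]
    linarith
  have hdiv : x₀ / √2 = y₀ := by
    rw [hx0def]
    field_simp
  have hg0 : gg b d x₀ = 0 := by
    unfold gg
    rw [hdiv, hz, mul_zero]
  have hg0' : gg b d (-x₀) = 0 := by
    unfold gg
    rw [neg_div, V0_neg, hdiv, hz, mul_zero]
  have hgpos : ∀ x ∈ Ioo (-x₀) x₀, 0 < gg b d x := by
    intro x hx
    unfold gg
    refine mul_pos (Real.exp_pos _) ?_
    have h1 : V0 b d (x / √2) = V0 b d (|x| / √2) := by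
      rcases abs_cases x with ⟨h, _⟩ | ⟨h, _⟩ <;> rw [h]
      rw [neg_div, V0_neg]
    rw [h1]
    refine hpos _ ⟨by positivity, ?_⟩
    rw [div_lt_iff₀ hs0, mul_comm]
    exact abs_lt.2 hx
  have hgnn : ∀ x ∈ Ioo (-x₀) x₀, 0 ≤ gg b d x := fun x hx => (hgpos x hx).le
  have cg := continuous_gg b d
  -- the one dimensional constants
  set n₀ := ∫ x in (-x₀)..x₀, gg b d x ^ 2 with hn₀
  set M := ∫ x in (-x₀)..x₀, gg b d x with hM
  have hn₀pos : 0 < n₀ := by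
    refine intervalIntegral.intervalIntegral_pos_of_pos_on
      (Continuous.intervalIntegrable (by fun_prop) _ _) (fun x hx => ?_) (by linarith)
    exact pow_pos (hgpos x hx) 2
  have hMpos : 0 < M := by
    refine intervalIntegral.intervalIntegral_pos_of_pos_on
      (Continuous.intervalIntegrable (by fun_prop) _ _) (fun x hx => hgpos x hx) (by linarith)
  have hE : 0 < b + d := by
    rcases hd.lt_or_eq with h | h
    · linarith
    · exfalso
      rw [← h, V0_d_zero] at hz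
      exact one_ne_zero hz
  set ε := n₀ * η / (4 * M * (b + d + η)) with hεdef
  have hε : 0 < ε := by positivity
  have hεeq : (b + d) * n₀ = (b + d + η) * (n₀ - 4 * ε * M) := by
    rw [hεdef]
    field_simp
    ring
  -- a₁
  obtain ⟨a₁, ha1, ha1', ha⟩ : ∃ a₁, 0 < a₁ ∧ a₁ < x₀ ∧
      ∀ x ∈ Ioo (-x₀) x₀, a₁ < |x| → gg b d x ≤ ε := by
    have h1 : ∀ᶠ x in 𝓝 x₀, gg b d x < ε :=
      cg.continuousAt.eventually (gt_mem_nhds (by rw [hg0]; exact hε))
    have h2 : ∀ᶠ x in 𝓝 (-x₀), gg b d x < ε :=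
      cg.continuousAt.eventually (gt_mem_nhds (by rw [hg0']; exact hε))
    obtain ⟨r1, hr1, h1'⟩ := Metric.eventually_nhds_iff.1 h1
    obtain ⟨r2, hr2, h2'⟩ := Metric.eventually_nhds_iff.1 h2
    refine ⟨x₀ - min (min r1 r2) (x₀ / 2), ?_, ?_, ?_⟩
    · have := min_le_right (min r1 r2) (x₀ / 2)
      linarith
    · have : 0 < min (min r1 r2) (x₀ / 2) := lt_min (lt_min hr1 hr2) (by linarith)
      linarith
    · intro x hx hax
      have m1 : min (min r1 r2) (x₀ / 2) ≤ r1 := (min_le_left _ _).trans (min_le_left _ _)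
      have m2 : min (min r1 r2) (x₀ / 2) ≤ r2 := (min_le_left _ _).trans (min_le_right _ _)
      rcases le_total 0 x with h0 | h0
      · rw [abs_of_nonneg h0] at hax
        refine (h1' ?_).le
        rw [Real.dist_eq, abs_sub_lt_iff]
        constructor <;> linarith [hx.1, hx.2]
      · rw [abs_of_nonpos h0] at hax
        refine (h2' ?_).le
        rw [Real.dist_eq, abs_sub_lt_iff]
        constructor <;> linarith [hx.1, hx.2]
  have hsm := contDiff_hc hε ha1' ha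
  have hder := hasDerivAt_hc hε ha1' ha
  have hz0 : ∀ x, a₁ < |x| → hc b d x₀ ε x = 0 := fun x hx => hc_zero hε ha hx
  have hderiv : deriv (hc b d x₀ ε) = hc' b d x₀ ε := funext fun x => (hder x).deriv
  have hc'c : Continuous (hc' b d x₀ ε) := by
    rw [← hderiv]
    exact hsm.continuous_deriv (by simp)
  have hz0' : ∀ x, a₁ < |x| → hc' b d x₀ ε x = 0 := by
    intro x hx
    rw [← hderiv]
    exact (hc_eventually_zero hε ha hx).deriv_eq.trans (by simp)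
  obtain ⟨e1, e2, e3⟩ := integrals_prodF hsm hder hc'c hz0 hz0' B
  have hB2 : B ^ 2 = b ^ 2 := by rw [hb, sq_abs]
  have k1 := oneD hx₀ (b := b) (d := d) (ε := ε)
  have k2 := oneD_w hx₀ hgnn hε (b := b) (d := d)
  have k3 := oneD_n hx₀ hgnn hε (b := b) (d := d)
  have k4 := virial b d hg0 hg0'
  set n := ∫ x, hc b d x₀ ε x ^ 2 with hn
  have hnpos : 0 < n := by
    refine lt_of_lt_of_le ?_ k3
    have h2 : n₀ - 4 * ε * M = n₀ * (b + d) / (b + d + η) := by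
      rw [hεdef]
      field_simp
      ring
    rw [h2]
    positivity
  have hkey : (∫ x, hc' b d x₀ ε x ^ 2) + B ^ 2 / 4 * (∫ x, x ^ 2 * hc b d x₀ ε x ^ 2) ≤
      (b + d + η) / 2 * n := by
    calc (∫ x, hc' b d x₀ ε x ^ 2) + B ^ 2 / 4 * (∫ x, x ^ 2 * hc b d x₀ ε x ^ 2)
        ≤ (∫ x in (-x₀)..x₀, gg' b d x ^ 2) +
          b ^ 2 / 4 * (∫ x in (-x₀)..x₀, x ^ 2 * gg b d x ^ 2) := by
          rw [hB2]
          gcongr
      _ = (b + d) / 2 * n₀ := k4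
      _ = (b + d + η) / 2 * (n₀ - 4 * ε * M) := by linarith
      _ ≤ (b + d + η) / 2 * n := by gcongr
  refine ⟨prodF (hc b d x₀ ε), ⟨contDiff_prodF hsm, compact_prodF hz0,
    (tsupport_prodF hz0).trans ?_⟩, ?_, ?_, ?_⟩
  · unfold rect
    refine prod_mono ?_ ?_
    · intro x hx
      exact ⟨by linarith [hx.1], by linarith [hx.2]⟩
    · intro x hx
      constructor
      · norm_num
        linarith [hx.1]
      · norm_num
        linarith [hx.2]
  · rw [e1]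
    positivity
  · rw [e1, e2]
    calc n * ((∫ x, hc' b d x₀ ε x ^ 2) + B ^ 2 / 4 * ∫ x, x ^ 2 * hc b d x₀ ε x ^ 2)
        ≤ n * ((b + d + η) / 2 * n) := by gcongr
      _ = (b + d + η) / 2 * n ^ 2 := by ring
  · rw [e1, e3]
    calc n * ((∫ x, hc' b d x₀ ε x ^ 2) + B ^ 2 / 4 * ∫ x, x ^ 2 * hc b d x₀ ε x ^ 2)
        ≤ n * ((b + d + η) / 2 * n) := by gcongr
      _ = (b + d + η) / 2 * n ^ 2 := by ring

end Pool.Agent.Lib.MP_0fe113_an
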