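import Mathlib
import Pool.Agent.Lib.MP_0fe113_an.Lower
import Pool.Agent.Lib.MP_0fe113_an.Upper

/-! The dichotomy and the two forms of the lower bound. -/

namespace Pool.Agent.Lib.MP_0fe113_an

open MeasureTheory Set Filter Topology

theorem first_zero {b d l : ℝ} (h : ¬ ∀ y ∈ Icc 0 l, 0 < V0 b d y) :
    ∃ y₀, 0 < y₀ ∧ y₀ ≤ l ∧ V0 b d y₀ = 0 ∧ ∀ y ∈ Ico 0 y₀, 0 < V0 b d y := by
  push Not at h
  obtain ⟨y1, hy1, hv1⟩ := h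
  have cV := continuous_V0 b d
  have hS : IsCompact (Icc 0 l ∩ {y | V0 b d y ≤ 0}) :=
    isCompact_Icc.inter_right (isClosed_le cV continuous_const)
  obtain ⟨y₀, hy₀, hleast⟩ := hS.exists_isLeast ⟨y1, hy1, hv1⟩
  have hne : y₀ ≠ 0 := by
    rintro rfl
    have := hy₀.2
    simp only [mem_ofPred_eq, V0_zero] at this
    linarith
  have h0 : 0 < y₀ := lt_of_le_of_ne hy₀.1.1 hne.symm
  obtain ⟨c, hc, hc0⟩ : (0 : ℝ) ∈ V0 b d '' Icc 0 y₀ := by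
    refine intermediate_value_Icc' h0.le cV.continuousOn ⟨hy₀.2, ?_⟩
    rw [V0_zero]
    exact zero_le_one
  have hcy : y₀ ≤ c := hleast ⟨⟨hc.1, hc.2.trans hy₀.1.2⟩, hc0.le⟩
  have : c = y₀ := le_antisymm hc.2 hcy
  refine ⟨y₀, h0, hy₀.1.2, this ▸ hc0, fun y hy => ?_⟩
  by_contra hcon
  push Not at hcon
  have := hleast ⟨⟨hy.1, hy.2.le.trans hy₀.1.2⟩, hcon⟩
  linarith [hy.2]

/-- a Poincaré inequality in the second direction -/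
theorem poincare2 {U : ℝ × ℝ → ℂ} (hU : ContDiff ℝ (⊤ : ℕ∞) U) (hK : IsCompact (tsupport U))
    {m : ℝ} (hKm : ∀ q ∈ tsupport U, q.2 ∈ Ioo (-m) m) :
    ∫ q, ‖U q‖ ^ 2 ≤ 4 * m ^ 2 * ∫ q, ‖pd2 U q‖ ^ 2 := by
  have hA := contDiff_pC hU
  have cU := hU.continuous
  have cA := hA.continuous
  have zU : ∀ q ∉ tsupport U, U q = 0 := fun q hq => image_eq_zero_of_notMem_tsupport hq
  have zA : ∀ q ∉ tsupport U, pd2 U q = 0 := fun q hq => pC_eq_zero hq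
  have hint : ∀ F : ℝ × ℝ → ℝ, Continuous F → (∀ q ∉ tsupport U, F q = 0) → Integrable F :=
    fun F hF h0 => hF.integrable_of_hasCompactSupport (HasCompactSupport.intro hK h0)
  have i1 : Integrable fun q : ℝ × ℝ => ‖U q‖ ^ 2 :=
    hint _ (by fun_prop) fun q hq => by simp [zU q hq]
  have i2 : Integrable fun q : ℝ × ℝ => ‖pd2 U q‖ ^ 2 :=
    hint _ (by fun_prop) fun q hq => by simp [zA q hq]
  have d := integral_vert (K := tsupport U) (a := fun y => y) (a' := fun _ => 1)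
    (W := fun q => (U q).re ^ 2 + (U q).im ^ 2)
    (Wy := fun q => 2 * ((U q).re * (pd2 U q).re + (U q).im * (pd2 U q).im)) hK hKm
    (fun y _ => hasDerivAt_id y) (fun _ _ => continuousAt_const)
    (by fun_prop) (fun q hq => by simp [zU q hq]) (by fun_prop)
    (fun q hq => by simp [zU q hq])
    (by
      intro x y
      have h1 := (hasDerivAt_re (hasDerivAt_pC hU x y)).pow 2
      have h2 := (hasDerivAt_im (hasDerivAt_pC hU x y)).pow 2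
      refine (h1.add h2).congr_deriv ?_
      push_cast
      ring)
  simp only [one_mul] at d
  have hpt : ∀ q : ℝ × ℝ, 0 ≤ (((U q).re ^ 2 + (U q).im ^ 2) +
      q.2 * (2 * ((U q).re * (pd2 U q).re + (U q).im * (pd2 U q).im))) -
      (2⁻¹ * ‖U q‖ ^ 2 - 2 * m ^ 2 * ‖pd2 U q‖ ^ 2) := by
    intro q
    by_cases hq : q ∈ tsupport U
    · have hy := hKm q hq
      have e3 : ‖U q‖ ^ 2 = (U q).re ^ 2 + (U q).im ^ 2 := by
        rw [← Complex.normSq_eq_norm_sq, Complex.normSq_apply]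
        ring
      have e4 : ‖pd2 U q‖ ^ 2 = (pd2 U q).re ^ 2 + (pd2 U q).im ^ 2 := by
        rw [← Complex.normSq_eq_norm_sq, Complex.normSq_apply]
        ring
      rw [e3, e4]
      have hm : q.2 ^ 2 ≤ m ^ 2 := by
        apply sq_le_sq'
        · exact hy.1.le
        · exact hy.2.le
      have h5 : q.2 ^ 2 * ((pd2 U q).re ^ 2 + (pd2 U q).im ^ 2) ≤
          m ^ 2 * ((pd2 U q).re ^ 2 + (pd2 U q).im ^ 2) := by
        gcongr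
      nlinarith [sq_nonneg ((U q).re + 2 * q.2 * (pd2 U q).re),
        sq_nonneg ((U q).im + 2 * q.2 * (pd2 U q).im)]
    · simp [zU q hq, zA q hq]
  have hI : 0 ≤ ∫ q : ℝ × ℝ, ((((U q).re ^ 2 + (U q).im ^ 2) +
      q.2 * (2 * ((U q).re * (pd2 U q).re + (U q).im * (pd2 U q).im))) -
      (2⁻¹ * ‖U q‖ ^ 2 - 2 * m ^ 2 * ‖pd2 U q‖ ^ 2)) := integral_nonneg hpt
  rw [integral_sub, d, integral_sub, integral_const_mul, integral_const_mul] at hI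
  · linarith
  · exact i1.const_mul _
  · exact i2.const_mul _
  · exact hint _ (by fun_prop) fun q hq => by simp [zU q hq]
  · exact (i1.const_mul _).sub (i2.const_mul _)

/-- the swapped function -/
noncomputable def sw (φ : ℝ × ℝ → ℂ) (q : ℝ × ℝ) : ℂ := φ q.swap

theorem integral_swap_eq (F : ℝ × ℝ → ℝ) : ∫ q : ℝ × ℝ, F q.swap = ∫ q, F q := by
  rw [Measure.volume_eq_prod]
  exact integral_prod_swap F

section Sw

variable {φ : ℝ × ℝ → ℂ}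

theorem contDiff_sw (hφ : ContDiff ℝ (⊤ : ℕ∞) φ) : ContDiff ℝ (⊤ : ℕ∞) (sw φ) :=
  hφ.comp (contDiff_snd.prodMk contDiff_fst)

theorem tsupport_sw (φ : ℝ × ℝ → ℂ) : tsupport (sw φ) = Prod.swap ⁻¹' tsupport φ := by
  have : sw φ = φ ∘ (Homeomorph.prodComm ℝ ℝ) := rfl
  rw [this, tsupport_comp_eq_preimage]
  rfl

theorem compact_sw (hφ : IsCompact (tsupport φ)) : IsCompact (tsupport (sw φ)) := by
  rw [tsupport_sw]
  exact (Homeomorph.prodComm ℝ ℝ).isCompact_preimage.2 hφ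

theorem pd1_sw (hφ : ContDiff ℝ (⊤ : ℕ∞) φ) (q : ℝ × ℝ) : pd1 (sw φ) q = pd2 φ q.swap := by
  obtain ⟨x, y⟩ := q
  exact (hasDerivAt_pA (contDiff_sw hφ) x y).unique (hasDerivAt_pC hφ y x)

theorem pd2_sw (hφ : ContDiff ℝ (⊤ : ℕ∞) φ) (q : ℝ × ℝ) : pd2 (sw φ) q = pd1 φ q.swap := by
  obtain ⟨x, y⟩ := q
  exact (hasDerivAt_pC (contDiff_sw hφ) x y).unique (hasDerivAt_pA hφ y x)

theorem mag1_sw (hφ : ContDiff ℝ (⊤ : ℕ∞) φ) (B : ℝ) (q : ℝ × ℝ) :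
    mag1 (-B) (sw φ) (pd1 (sw φ)) q = mag2 B φ (pd2 φ) q.swap := by
  unfold mag1 mag2
  rw [pd1_sw hφ]
  unfold A1 A2 sw
  simp only [Prod.fst_swap]
  push_cast
  ring

theorem mag2_sw (hφ : ContDiff ℝ (⊤ : ℕ∞) φ) (B : ℝ) (q : ℝ × ℝ) :
    mag2 (-B) (sw φ) (pd2 (sw φ)) q = mag1 B φ (pd1 φ) q.swap := by
  unfold mag1 mag2
  rw [pd2_sw hφ]
  unfold A1 A2 sw
  simp only [Prod.snd_swap]
  push_cast
  ring

end Sw

theorem lower_sw {φ : ℝ × ℝ → ℂ} (hφ : ContDiff ℝ (⊤ : ℕ∞) φ) (hK : IsCompact (tsupport φ))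
    {l s m : ℝ} (hs : 0 < s) (hm : 0 < m)
    (hKl : ∀ q ∈ tsupport φ, q.1 ∈ Ioo (-(√s * l)) (√s * l))
    (hKm : ∀ q ∈ tsupport φ, q.2 ∈ Ioo (-m) m) {B d : ℝ} (hd : 0 ≤ d)
    (hv : ∀ y ∈ Icc 0 l, 0 < V0 |B| d y) :
    (|B| + d + Real.exp (-|B| * l ^ 2) / (4 * m ^ 2 * s)) * (∫ q, ‖φ q‖ ^ 2) ≤
      s⁻¹ * (∫ q, ‖mag2 B φ (pd2 φ) q‖ ^ 2) + s * (∫ q, ‖mag1 B φ (pd1 φ) q‖ ^ 2) := by
  have h := lower (φ := sw φ) (contDiff_sw hφ) (compact_sw hK) hs hm (l := l) (B := -B) (d := d)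
    (fun q hq => by rw [tsupport_sw] at hq; exact hKl _ hq)
    (fun q hq => by rw [tsupport_sw] at hq; exact hKm _ hq) hd (by rwa [abs_neg])
  rw [abs_neg] at h
  simp only [mag1_sw hφ, mag2_sw hφ] at h
  rw [integral_swap_eq fun q => ‖mag2 B φ (pd2 φ) q‖ ^ 2,
    integral_swap_eq fun q => ‖mag1 B φ (pd1 φ) q‖ ^ 2] at h
  have e : ∫ q, ‖sw φ q‖ ^ 2 = ∫ q, ‖φ q‖ ^ 2 := integral_swap_eq fun q => ‖φ q‖ ^ 2
  rw [e] at h
  exact h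

theorem mag2_pos {φ : ℝ × ℝ → ℂ} (hφ : ContDiff ℝ (⊤ : ℕ∞) φ) (hK : IsCompact (tsupport φ))
    {m : ℝ} (hKm : ∀ q ∈ tsupport φ, q.2 ∈ Ioo (-m) m) (B : ℝ) :
    (∫ q, ‖φ q‖ ^ 2) ≤ 4 * m ^ 2 * ∫ q, ‖mag2 B φ (pd2 φ) q‖ ^ 2 := by
  have hU := contDiff_gU B hφ
  have hts := tsupport_gU B φ
  have hKU : IsCompact (tsupport (gU B φ)) := hK.of_isClosed_subset (isClosed_tsupport _) hts
  have h2 := poincare2 hU hKU (fun q hq => hKm q (hts hq))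
  have e0 : ∀ q, ‖gU B φ q‖ = ‖φ q‖ := fun q => by simp [gU, norm_gau]
  have e2 : ∀ q : ℝ × ℝ, ‖pd2 (gU B φ) q‖ = ‖mag2 B φ (pd2 φ) q‖ := by
    intro q
    have : pd2 (gU B φ) q = gau B q * mag2 B φ (pd2 φ) q := by
      rw [pd2_gU B hφ]
      simp only [mag2, A2]
      push_cast
      ring
    rw [this, norm_mul, norm_gau, one_mul]
  simp only [e0, e2] at h2
  exact h2

theorem mag1_pos {φ : ℝ × ℝ → ℂ} (hφ : ContDiff ℝ (⊤ : ℕ∞) φ) (hK : IsCompact (tsupport φ))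
    {m : ℝ} (hKm : ∀ q ∈ tsupport φ, q.1 ∈ Ioo (-m) m) (B : ℝ) :
    (∫ q, ‖φ q‖ ^ 2) ≤ 4 * m ^ 2 * ∫ q, ‖mag1 B φ (pd1 φ) q‖ ^ 2 := by
  have h := mag2_pos (φ := sw φ) (contDiff_sw hφ) (compact_sw hK) (m := m)
    (fun q hq => by rw [tsupport_sw] at hq; exact hKm _ hq) (-B)
  simp only [mag2_sw hφ] at h
  rw [integral_swap_eq fun q => ‖mag1 B φ (pd1 φ) q‖ ^ 2] at h
  have e : ∫ q, ‖sw φ q‖ ^ 2 = ∫ q, ‖φ q‖ ^ 2 := integral_swap_eq fun q => ‖φ q‖ ^ 2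
  rw [e] at h
  exact h

/-- the half width `1/(2√2)` -/
noncomputable def l₀ : ℝ := 1 / (2 * √2)

theorem l₀_pos : 0 < l₀ := by unfold l₀; positivity

theorem l₀_sq : l₀ ^ 2 = 1 / 8 := by
  unfold l₀
  rw [div_pow, mul_pow, Real.sq_sqrt (by norm_num)]
  norm_num

/-- If positivity fails, the square has good test functions. -/
theorem upper_of_not {B d : ℝ} (hd : 0 ≤ d) (h : ¬ ∀ y ∈ Icc 0 l₀, 0 < V0 |B| d y)
    {η : ℝ} (hη : 0 < η) :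
    ∃ φ : ℝ × ℝ → ℂ, IsTest (rect 1) φ ∧ 0 < ∫ q, ‖φ q‖ ^ 2 ∧
      (∫ q, ‖mag1 B φ (pd1 φ) q‖ ^ 2) ≤ (|B| + d + η) / 2 * ∫ q, ‖φ q‖ ^ 2 ∧
      (∫ q, ‖mag2 B φ (pd2 φ) q‖ ^ 2) ≤ (|B| + d + η) / 2 * ∫ q, ‖φ q‖ ^ 2 := by
  obtain ⟨y₀, h0, h1, h2, h3⟩ := first_zero h
  refine upper hd h0 ?_ h2 h3 hη
  rw [← l₀_sq]
  exact pow_le_pow_left₀ h0.le h1 2

end Pool.Agent.Lib.MP_0fe113_an
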