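import Mathlib
import Pool.Agent.Lib.MP_0fe113_an.Dicho

/-! The square beats every rectangle of side ratio at least two. -/

namespace Pool.Agent.Lib.MP_0fe113_an

open MeasureTheory Set Filter Topology

theorem rayleighSet_bddBelow (B a : ℝ) : BddBelow (rayleighSet B a) := by
  refine ⟨0, ?_⟩
  rintro r ⟨φ, _, _, rfl⟩
  positivity

theorem exists_test {a : ℝ} (ha : 0 < a) :
    ∃ φ, IsTest (rect a) φ ∧ 0 < (∫ q, ‖φ q‖ ^ 2) := by
  have hopen : IsOpen (rect a) := isOpen_Ioo.prod isOpen_Ioo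
  have h0 : (0 : ℝ × ℝ) ∈ rect a := by
    unfold rect
    have : 0 < 1 / (2 * a) := by positivity
    exact ⟨⟨by simp only [Prod.fst_zero]; linarith, by simp only [Prod.fst_zero]; linarith⟩,
      ⟨by simp only [Prod.snd_zero]; linarith, by simp only [Prod.snd_zero]; linarith⟩⟩
  obtain ⟨f, hf1, hf2, hf3, hf4, hf5⟩ :=
    exists_contDiff_tsupport_subset (n := (⊤ : ℕ∞)) (hopen.mem_nhds h0)
  refine ⟨fun q => (f q : ℂ), ⟨Complex.ofRealCLM.contDiff.comp hf3, ?_, ?_⟩, ?_⟩
  · exact hf2.comp_left (g := fun x : ℝ => (x : ℂ)) (by simp)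
  · refine (closure_mono ?_).trans hf1
    intro q hq
    simp only [Function.mem_support, ne_eq, Complex.ofReal_eq_zero] at hq ⊢
    exact hq
  · have hc : Continuous fun q : ℝ × ℝ => ‖(f q : ℂ)‖ ^ 2 := by
      have := hf3.continuous
      fun_prop
    refine hc.integral_pos_of_hasCompactSupport_nonneg_nonzero (x := 0) ?_ ?_ ?_
    · refine HasCompactSupport.intro hf2.isCompact fun q hq => ?_
      have : f q = 0 := image_eq_zero_of_notMem_tsupport hq
      simp [this]
    · intro q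
      positivity
    · simp [hf5]

theorem rayleighSet_nonempty (B : ℝ) {a : ℝ} (ha : 0 < a) : (rayleighSet B a).Nonempty := by
  obtain ⟨φ, h1, h2⟩ := exists_test ha
  exact ⟨_, φ, h1, h2, rfl⟩

theorem lam_one_le {B d : ℝ} (hd : 0 ≤ d) (h : ¬ ∀ y ∈ Icc 0 l₀, 0 < V0 |B| d y) :
    lam B 1 ≤ |B| + d := by
  refine le_of_forall_pos_le_add fun η hη => ?_
  obtain ⟨φ, h1, h2, h3, h4⟩ := upper_of_not hd h hη
  refine (csInf_le (rayleighSet_bddBelow B 1) ⟨φ, h1, h2, rfl⟩).trans ?_
  rw [div_le_iff₀ h2]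
  linarith

/-- the lower bound for the long rectangles -/
theorem le_lam {B d a : ℝ} (ha : 0 < a) (ha2 : 2 ≤ a ^ 2 ∨ a ^ 2 ≤ 1 / 2) (hd : 0 ≤ d)
    (h : ∀ y ∈ Icc 0 l₀, 0 < V0 |B| d y) :
    |B| + d + Real.exp (-|B| / 8) / (a ^ 2 + 1 / a ^ 2) ≤ lam B a := by
  refine le_csInf (rayleighSet_nonempty B ha) ?_
  rintro r ⟨φ, hφ, hpos, rfl⟩
  rw [le_div_iff₀ hpos]
  have hK : IsCompact (tsupport φ) := hφ.compact
  have hexp : Real.exp (-|B| * l₀ ^ 2) = Real.exp (-|B| / 8) := by
    rw [l₀_sq]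
    congr 1
    ring
  have hs2 : (√2 : ℝ) ^ 2 = 2 := Real.sq_sqrt (by norm_num)
  have hs0 : (0 : ℝ) < √2 := by positivity
  rcases ha2 with ha2 | ha2
  · have hl : 1 / (2 * a) ≤ l₀ := by
      unfold l₀
      have : √2 ≤ a := by
        apply le_of_sq_le_sq _ ha.le
        rw [hs2]
        exact ha2
      gcongr
    have hlow := lower hφ.smooth hK (s := 1) (m := a / 2) one_pos (by positivity) (l := l₀)
      (fun q hq => by
        rw [Real.sqrt_one, one_mul]
        have := (hφ.supp hq).2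
        exact ⟨by linarith [this.1], by linarith [this.2]⟩)
      (fun q hq => (hφ.supp hq).1) hd h
    rw [hexp] at hlow
    have hc : Real.exp (-|B| / 8) / (a ^ 2 + 1 / a ^ 2) ≤
        Real.exp (-|B| / 8) / (4 * (a / 2) ^ 2 * 1) := by
      apply div_le_div_of_nonneg_left (Real.exp_pos _).le (by positivity)
      have : 0 < 1 / a ^ 2 := by positivity
      nlinarith
    calc (|B| + d + Real.exp (-|B| / 8) / (a ^ 2 + 1 / a ^ 2)) * ∫ q, ‖φ q‖ ^ 2
        ≤ (|B| + d + Real.exp (-|B| / 8) / (4 * (a / 2) ^ 2 * 1)) * ∫ q, ‖φ q‖ ^ 2 := by gcongr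
      _ ≤ _ := by simpa using hlow
  · have hl : a / 2 ≤ l₀ := by
      unfold l₀
      have : a ≤ 1 / √2 := by
        apply le_of_sq_le_sq _ (by positivity)
        rw [div_pow, hs2]
        linarith
      calc a / 2 ≤ (1 / √2) / 2 := by gcongr
        _ = 1 / (2 * √2) := by field_simp
    have hlow := lower_sw hφ.smooth hK (s := 1) (m := 1 / (2 * a)) one_pos (by positivity)
      (l := l₀)
      (fun q hq => by
        rw [Real.sqrt_one, one_mul]
        have := (hφ.supp hq).1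
        exact ⟨by linarith [this.1], by linarith [this.2]⟩)
      (fun q hq => (hφ.supp hq).2) hd h
    rw [hexp] at hlow
    have hc : Real.exp (-|B| / 8) / (a ^ 2 + 1 / a ^ 2) ≤
        Real.exp (-|B| / 8) / (4 * (1 / (2 * a)) ^ 2 * 1) := by
      apply div_le_div_of_nonneg_left (Real.exp_pos _).le (by positivity)
      have e : 4 * (1 / (2 * a)) ^ 2 * 1 = 1 / a ^ 2 := by
        field_simp
        norm_num
      rw [e]
      have : 0 < a ^ 2 := by positivity
      linarith
    calc (|B| + d + Real.exp (-|B| / 8) / (a ^ 2 + 1 / a ^ 2)) * ∫ q, ‖φ q‖ ^ 2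
        ≤ (|B| + d + Real.exp (-|B| / 8) / (4 * (1 / (2 * a)) ^ 2 * 1)) *
          ∫ q, ‖φ q‖ ^ 2 := by gcongr
      _ ≤ _ := by
        simp only [inv_one, one_mul] at hlow
        linarith

/-- **Theorem.** For every field `B` the unit square has a smaller lowest eigenvalue than
every rectangle of area one and side ratio at least two, with an explicit gap. -/
theorem lam_one_add_le {B a : ℝ} (ha : 0 < a) (ha2 : 2 ≤ a ^ 2 ∨ a ^ 2 ≤ 1 / 2) :
    lam B 1 + Real.exp (-|B| / 8) / (a ^ 2 + 1 / a ^ 2) ≤ lam B a := by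
  refine le_of_forall_pos_le_add fun ε hε => ?_
  by_cases hd : 0 ≤ lam B 1 - |B| - ε
  · by_cases hp : ∀ y ∈ Icc 0 l₀, 0 < V0 |B| (lam B 1 - |B| - ε) y
    · have := le_lam ha ha2 hd hp
      linarith
    · have := lam_one_le hd hp
      linarith
  · push Not at hd
    have := le_lam (B := B) ha ha2 le_rfl fun y _ => by
      rw [V0_d_zero]
      exact one_pos
    linarith

end Pool.Agent.Lib.MP_0fe113_an
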