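import Mathlib
import Pool.Agent.Lib.MP_0fe113_an.Dicho

/-! Passage to the Sobolev space and the statement on minimisers. -/

namespace Pool.Agent.Lib.MP_0fe113_an

open MeasureTheory Set Filter Topology

open scoped ENNReal

theorem nrm_nonneg (Ω : Set (ℝ × ℝ)) (u : ℝ × ℝ → ℂ) : 0 ≤ nrm Ω u := ENNReal.toReal_nonneg

/-- norms of continuous functions with compact support in `Ω` -/
theorem nrm_sq_of_continuous {Ω K : Set (ℝ × ℝ)} (hΩ : MeasurableSet Ω) {F : ℝ × ℝ → ℂ}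
    (hF : Continuous F) (hK : IsCompact K) (hKΩ : K ⊆ Ω) (hF0 : ∀ q ∉ K, F q = 0) :
    nrm Ω F ^ 2 = ∫ q, ‖F q‖ ^ 2 := by
  have hcs : HasCompactSupport F := HasCompactSupport.intro hK hF0
  have hmem : MemLp F 2 volume := hF.memLp_of_hasCompactSupport hcs
  have h1 : eLpNorm F 2 (volume.restrict Ω) = eLpNorm F 2 volume := by
    rw [← eLpNorm_indicator_eq_eLpNorm_restrict hΩ]
    congr 1
    rw [indicator_eq_self]
    intro q hq
    by_contra h
    exact hq (hF0 q fun h' => h (hKΩ h'))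
  unfold nrm
  rw [h1, hmem.eLpNorm_eq_integral_rpow_norm (by norm_num) (by norm_num)]
  simp only [ENNReal.toReal_ofNat, Real.rpow_ofNat]
  have h2 : 0 ≤ ∫ q, ‖F q‖ ^ 2 := integral_nonneg fun q => by positivity
  rw [ENNReal.toReal_ofReal (by positivity), ← Real.rpow_natCast, ← Real.rpow_mul h2]
  norm_num

theorem tendsto_nrm {μ : Measure (ℝ × ℝ)} {F : ℝ × ℝ → ℂ} {Fn : ℕ → ℝ × ℝ → ℂ}
    (hF : MemLp F 2 μ) (hFn : ∀ n, MemLp (Fn n) 2 μ)
    (h : Tendsto (fun n => eLpNorm (fun q => Fn n q - F q) 2 μ) atTop (𝓝 0)) :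
    Tendsto (fun n => (eLpNorm (Fn n) 2 μ).toReal) atTop (𝓝 (eLpNorm F 2 μ).toReal) := by
  have h' : Tendsto (fun n => (eLpNorm (fun q => Fn n q - F q) 2 μ).toReal) atTop (𝓝 0) := by
    have := (ENNReal.tendsto_toReal ENNReal.zero_ne_top).comp h
    rw [ENNReal.toReal_zero] at this
    exact this
  rw [tendsto_iff_dist_tendsto_zero]
  refine squeeze_zero (fun n => dist_nonneg) (fun n => ?_) h'
  have hd : MemLp (fun q => Fn n q - F q) 2 μ := (hFn n).sub hF
  rw [Real.dist_eq, abs_le]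
  have h1 : (eLpNorm (Fn n) 2 μ).toReal ≤
      (eLpNorm (fun q => Fn n q - F q) 2 μ).toReal + (eLpNorm F 2 μ).toReal := by
    rw [← ENNReal.toReal_add hd.eLpNorm_ne_top hF.eLpNorm_ne_top]
    refine ENNReal.toReal_mono (ENNReal.add_ne_top.2 ⟨hd.eLpNorm_ne_top, hF.eLpNorm_ne_top⟩) ?_
    have e : Fn n = (fun q => Fn n q - F q) + F := by
      funext q
      simp
    conv_lhs => rw [e]
    exact eLpNorm_add_le hd.1 hF.1 (by norm_num)
  have h2 : (eLpNorm F 2 μ).toReal ≤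
      (eLpNorm (fun q => Fn n q - F q) 2 μ).toReal + (eLpNorm (Fn n) 2 μ).toReal := by
    rw [← ENNReal.toReal_add hd.eLpNorm_ne_top (hFn n).eLpNorm_ne_top]
    refine ENNReal.toReal_mono
      (ENNReal.add_ne_top.2 ⟨hd.eLpNorm_ne_top, (hFn n).eLpNorm_ne_top⟩) ?_
    have e : F = (Fn n) - (fun q => Fn n q - F q) := by
      funext q
      simp
    conv_lhs => rw [e]
    refine (eLpNorm_sub_le (hFn n).1 hd.1 (by norm_num)).trans ?_
    rw [add_comm]
  constructor <;> linarith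

theorem measurableSet_rect (a : ℝ) : MeasurableSet (rect a) :=
  measurableSet_Ioo.prod measurableSet_Ioo

theorem rect_one_mem {q : ℝ × ℝ} (hq : q ∈ rect 1) : |q.1| ≤ 1 / 2 ∧ |q.2| ≤ 1 / 2 := by
  obtain ⟨h1, h2⟩ := hq
  simp only [mem_Ioo, mul_one] at h1 h2
  exact ⟨abs_le.2 ⟨by linarith [h1.1], by linarith [h1.2]⟩,
    abs_le.2 ⟨by linarith [h2.1], by linarith [h2.2]⟩⟩

section Mag

variable {B : ℝ} {u g w h : ℝ × ℝ → ℂ}

theorem continuous_A1 (B : ℝ) : Continuous (A1 B) := by unfold A1; fun_prop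

theorem continuous_A2 (B : ℝ) : Continuous (A2 B) := by unfold A2; fun_prop

theorem abs_A1_le (B : ℝ) {q : ℝ × ℝ} (hq : q ∈ rect 1) : |A1 B q| ≤ |B| := by
  unfold A1
  have h := (rect_one_mem hq).2
  rw [abs_mul, abs_neg, abs_div, abs_two]
  nlinarith [abs_nonneg B, abs_nonneg q.2]

theorem abs_A2_le (B : ℝ) {q : ℝ × ℝ} (hq : q ∈ rect 1) : |A2 B q| ≤ |B| := by
  unfold A2
  have h := (rect_one_mem hq).1
  rw [abs_mul, abs_div, abs_two]
  nlinarith [abs_nonneg B, abs_nonneg q.1]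

theorem memLp_pot {A : ℝ × ℝ → ℝ} (hA : Continuous A) {C : ℝ} (hC : ∀ q ∈ rect 1, |A q| ≤ C)
    (hu : MemLp u 2 (volume.restrict (rect 1))) :
    MemLp (fun q => Complex.I * (A q : ℂ) * u q) 2 (volume.restrict (rect 1)) := by
  have hm : AEStronglyMeasurable (fun q : ℝ × ℝ => Complex.I * (A q : ℂ))
      (volume.restrict (rect 1)) := by
    have : Continuous fun q : ℝ × ℝ => Complex.I * (A q : ℂ) := by fun_prop
    exact this.aestronglyMeasurable
  refine MemLp.of_le_mul hu (hm.mul hu.1) (c := C) ?_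
  refine (ae_restrict_iff' (measurableSet_rect 1)).2 (Eventually.of_forall fun q hq => ?_)
  rw [norm_mul, norm_mul, Complex.norm_I, one_mul, Complex.norm_real, Real.norm_eq_abs]
  exact mul_le_mul_of_nonneg_right (hC q hq) (norm_nonneg _)

theorem eLpNorm_pot_le {A : ℝ × ℝ → ℝ} {C : ℝ} (hC : ∀ q ∈ rect 1, |A q| ≤ C) :
    eLpNorm (fun q => Complex.I * (A q : ℂ) * u q) 2 (volume.restrict (rect 1)) ≤
      ENNReal.ofReal C * eLpNorm u 2 (volume.restrict (rect 1)) := by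
  refine eLpNorm_le_mul_eLpNorm_of_ae_le_mul ?_ 2
  refine (ae_restrict_iff' (measurableSet_rect 1)).2 (Eventually.of_forall fun q hq => ?_)
  rw [norm_mul, norm_mul, Complex.norm_I, one_mul, Complex.norm_real, Real.norm_eq_abs]
  exact mul_le_mul_of_nonneg_right (hC q hq) (norm_nonneg _)

/-- convergence of the magnetic derivatives -/
theorem tendsto_mag {A : ℝ × ℝ → ℝ} (hA : Continuous A) {C : ℝ} (hC : ∀ q ∈ rect 1, |A q| ≤ C)
    {φ ψ : ℕ → ℝ × ℝ → ℂ} (hu : MemLp u 2 (volume.restrict (rect 1)))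
    (hg : MemLp g 2 (volume.restrict (rect 1)))
    (hφ : ∀ n, MemLp (φ n) 2 (volume.restrict (rect 1)))
    (hψ : ∀ n, MemLp (ψ n) 2 (volume.restrict (rect 1)))
    (h1 : Tendsto (fun n => eLpNorm (fun q => φ n q - u q) 2 (volume.restrict (rect 1)))
      atTop (𝓝 0))
    (h2 : Tendsto (fun n => eLpNorm (fun q => ψ n q - g q) 2 (volume.restrict (rect 1)))
      atTop (𝓝 0)) :
    Tendsto (fun n => nrm (rect 1) (fun q => ψ n q - Complex.I * (A q : ℂ) * φ n q)) atTop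
      (𝓝 (nrm (rect 1) (fun q => g q - Complex.I * (A q : ℂ) * u q))) := by
  refine tendsto_nrm (hg.sub (memLp_pot hA hC hu))
    (fun n => (hψ n).sub (memLp_pot hA hC (hφ n))) ?_
  have h3 : Tendsto (fun n => eLpNorm (fun q => ψ n q - g q) 2 (volume.restrict (rect 1)) +
      ENNReal.ofReal C * eLpNorm (fun q => φ n q - u q) 2 (volume.restrict (rect 1))) atTop
      (𝓝 (0 + ENNReal.ofReal C * 0)) :=
    h2.add (ENNReal.Tendsto.const_mul h1 (Or.inr ENNReal.ofReal_ne_top))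
  rw [mul_zero, add_zero] at h3
  refine tendsto_of_tendsto_of_tendsto_of_le_of_le tendsto_const_nhds h3
    (fun n => bot_le) (fun n => ?_)
  have e : (fun q => (ψ n q - Complex.I * (A q : ℂ) * φ n q) -
      (g q - Complex.I * (A q : ℂ) * u q)) =
      (fun q => ψ n q - g q) - (fun q => Complex.I * (A q : ℂ) * (φ n q - u q)) := by
    funext q
    simp only [Pi.sub_apply]
    ring
  simp only [e]
  refine (eLpNorm_sub_le ((hψ n).sub hg).1
    (memLp_pot hA hC ((hφ n).sub hu)).1 (by norm_num)).trans ?_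
  exact add_le_add le_rfl (eLpNorm_pot_le hC)

end Mag

theorem test_nrm {φ : ℝ × ℝ → ℂ} (hφ : IsTest (rect 1) φ) (B : ℝ) :
    nrm (rect 1) φ ^ 2 = ∫ q, ‖φ q‖ ^ 2 ∧
    nrm (rect 1) (mag1 B φ (pd1 φ)) ^ 2 = ∫ q, ‖mag1 B φ (pd1 φ) q‖ ^ 2 ∧
    nrm (rect 1) (mag2 B φ (pd2 φ)) ^ 2 = ∫ q, ‖mag2 B φ (pd2 φ) q‖ ^ 2 := by
  have c0 := hφ.smooth.continuous
  have c1 := (contDiff_pA hφ.smooth).continuous
  have c2 := (contDiff_pC hφ.smooth).continuous
  have a1 := continuous_A1 B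
  have a2 := continuous_A2 B
  refine ⟨?_, ?_, ?_⟩
  · exact nrm_sq_of_continuous (measurableSet_rect 1) c0 hφ.compact hφ.supp
      fun q hq => image_eq_zero_of_notMem_tsupport hq
  · refine nrm_sq_of_continuous (measurableSet_rect 1) ?_ hφ.compact hφ.supp fun q hq => ?_
    · unfold mag1
      fun_prop
    · simp [mag1, pA_eq_zero hq, image_eq_zero_of_notMem_tsupport hq]
  · refine nrm_sq_of_continuous (measurableSet_rect 1) ?_ hφ.compact hφ.supp fun q hq => ?_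
    · unfold mag2
      fun_prop
    · simp [mag2, pC_eq_zero hq, image_eq_zero_of_notMem_tsupport hq]

theorem test_memLp {φ : ℝ × ℝ → ℂ} (hφ : IsTest (rect 1) φ) :
    MemLp φ 2 (volume.restrict (rect 1)) ∧ MemLp (pd1 φ) 2 (volume.restrict (rect 1)) ∧
    MemLp (pd2 φ) 2 (volume.restrict (rect 1)) := by
  have c0 := hφ.smooth.continuous
  have c1 := (contDiff_pA hφ.smooth).continuous
  have c2 := (contDiff_pC hφ.smooth).continuous
  have m : ∀ F : ℝ × ℝ → ℂ, Continuous F → (∀ q ∉ tsupport φ, F q = 0) →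
      MemLp F 2 (volume.restrict (rect 1)) := fun F hF h0 =>
    MemLp.mono_measure Measure.restrict_le_self
      (hF.memLp_of_hasCompactSupport (HasCompactSupport.intro hφ.compact h0))
  exact ⟨m _ c0 fun q hq => image_eq_zero_of_notMem_tsupport hq,
    m _ c1 fun q hq => pA_eq_zero hq, m _ c2 fun q hq => pC_eq_zero hq⟩

theorem test_isW0 {φ : ℝ × ℝ → ℂ} (hφ : IsTest (rect 1) φ) :
    IsW0 (rect 1) φ (pd1 φ) (pd2 φ) := by
  obtain ⟨m0, m1, m2⟩ := test_memLp hφ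
  refine ⟨m0, m1, m2, fun _ => φ, fun _ => hφ, ?_, ?_, ?_⟩ <;> simp

/-- closed inequalities between the three norms pass to `W_0^{1,2}` -/
theorem w0_ineq {B : ℝ} {u g₁ g₂ : ℝ × ℝ → ℂ} (hu : IsW0 (rect 1) u g₁ g₂) {C α β : ℝ}
    (h : ∀ φ, IsTest (rect 1) φ → C * (∫ q, ‖φ q‖ ^ 2) ≤
      α * (∫ q, ‖mag1 B φ (pd1 φ) q‖ ^ 2) + β * (∫ q, ‖mag2 B φ (pd2 φ) q‖ ^ 2)) :
    C * nrm (rect 1) u ^ 2 ≤
      α * nrm (rect 1) (mag1 B u g₁) ^ 2 + β * nrm (rect 1) (mag2 B u g₂) ^ 2 := by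
  obtain ⟨m0, m1, m2, φ, hφ, t0, t1, t2⟩ := hu
  have k0 : Tendsto (fun n => nrm (rect 1) (φ n)) atTop (𝓝 (nrm (rect 1) u)) :=
    tendsto_nrm m0 (fun n => (test_memLp (hφ n)).1) t0
  have k1 : Tendsto (fun n => nrm (rect 1) (mag1 B (φ n) (pd1 (φ n)))) atTop
      (𝓝 (nrm (rect 1) (mag1 B u g₁))) :=
    tendsto_mag (continuous_A1 B) (fun q hq => abs_A1_le B hq) m0 m1
      (fun n => (test_memLp (hφ n)).1) (fun n => (test_memLp (hφ n)).2.1) t0 t1
  have k2 : Tendsto (fun n => nrm (rect 1) (mag2 B (φ n) (pd2 (φ n)))) atTop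
      (𝓝 (nrm (rect 1) (mag2 B u g₂))) :=
    tendsto_mag (continuous_A2 B) (fun q hq => abs_A2_le B hq) m0 m2
      (fun n => (test_memLp (hφ n)).1) (fun n => (test_memLp (hφ n)).2.2) t0 t2
  refine le_of_tendsto_of_tendsto' ((k0.pow 2).const_mul C)
    (((k1.pow 2).const_mul α).add ((k2.pow 2).const_mul β)) fun n => ?_
  obtain ⟨e0, e1, e2⟩ := test_nrm (hφ n) B
  rw [e0, e1, e2]
  exact h _ (hφ n)

/-- the abstract argument -/
theorem abstract_ratio {b X Y N κ δ : ℝ} (hY : 0 < Y) (hN : 0 < N)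
    (hδ : 0 < δ) (hκ : κ = 2 * X * Y / N ^ 2) (P : ℝ → Prop) (hP0 : P 0)
    (hlow : ∀ d, 0 ≤ d → P d → ∀ s, 2 ≤ s → (b + d + δ / s) * N ^ 2 ≤ s⁻¹ * X ^ 2 + s * Y ^ 2)
    (hup : ∀ d, 0 ≤ d → ¬ P d → κ ≤ b + d) : X < 2 * Y := by
  by_contra hcon
  push Not at hcon
  have hs : 2 ≤ X / Y := by
    rw [le_div_iff₀ hY]
    exact hcon
  have hX0 : 0 < X := by linarith
  have hspos : 0 < X / Y := by positivity
  have hval : (X / Y)⁻¹ * X ^ 2 + X / Y * Y ^ 2 = κ * N ^ 2 := by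
    rw [hκ]
    field_simp
    ring
  have hlow' : ∀ d, 0 ≤ d → P d → b + d + δ / (X / Y) ≤ κ := by
    intro d hd hp
    have := hlow d hd hp _ hs
    rw [hval] at this
    exact le_of_mul_le_mul_right this (by positivity)
  set t := δ / (X / Y) with ht
  have htpos : 0 < t := by positivity
  have h0 := hlow' 0 le_rfl hP0
  have hd : 0 ≤ κ - t / 2 - b := by linarith
  by_cases hp : P (κ - t / 2 - b)
  · have := hlow' _ hd hp
    linarith
  · have := hup _ hd hp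
    linarith

theorem sqrt_ge_of_two_le {s : ℝ} (hs : 2 ≤ s) : 1 / 2 ≤ √s * l₀ := by
  have h1 : √2 ≤ √s := Real.sqrt_le_sqrt hs
  have hs0 : (0 : ℝ) < √2 := by positivity
  calc (1 : ℝ) / 2 = √2 * l₀ := by
        unfold l₀
        field_simp
    _ ≤ √s * l₀ := mul_le_mul_of_nonneg_right h1 l₀_pos.le

/-- **Theorem.** Every minimiser is balanced up to a factor less than two. -/
theorem balanced {B : ℝ} {u g₁ g₂ : ℝ × ℝ → ℂ} (hu : IsMinimiser B u g₁ g₂) :
    nrm (rect 1) (mag1 B u g₁) < 2 * nrm (rect 1) (mag2 B u g₂) ∧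
      nrm (rect 1) (mag2 B u g₂) < 2 * nrm (rect 1) (mag1 B u g₁) := by
  obtain ⟨hW, hne, hmin⟩ := hu
  have hN : 0 < nrm (rect 1) u := lt_of_le_of_ne (nrm_nonneg _ _) hne.symm
  set X := nrm (rect 1) (mag1 B u g₁) with hX
  set Y := nrm (rect 1) (mag2 B u g₂) with hY
  set N := nrm (rect 1) u with hNdef
  have hX0 : 0 ≤ X := nrm_nonneg _ _
  have hY0 : 0 ≤ Y := nrm_nonneg _ _
  -- supports
  have s1 : ∀ φ, IsTest (rect 1) φ → ∀ q ∈ tsupport φ, q.1 ∈ Ioo (-(1 / 2) : ℝ) (1 / 2) := by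
    intro φ hφ q hq
    exact (hφ.supp hq).1
  have s2 : ∀ φ, IsTest (rect 1) φ → ∀ q ∈ tsupport φ, q.2 ∈ Ioo (-(1 / 2) : ℝ) (1 / 2) := by
    intro φ hφ q hq
    have := (hφ.supp hq).2
    simpa using this
  -- both norms are positive
  have hYpos : 0 < Y := by
    have h := w0_ineq (B := B) hW (C := 1) (α := 0) (β := 4 * (1 / 2) ^ 2) fun φ hφ => by
      have := mag2_pos hφ.smooth hφ.compact (s2 φ hφ) B
      linarith
    rw [← hNdef, ← hX, ← hY] at h
    have : 0 < Y ^ 2 := by nlinarith [pow_pos hN 2]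
    exact lt_of_le_of_ne hY0 fun h0 => by rw [← h0] at this; norm_num at this
  have hXpos : 0 < X := by
    have h := w0_ineq (B := B) hW (C := 1) (α := 4 * (1 / 2) ^ 2) (β := 0) fun φ hφ => by
      have := mag1_pos hφ.smooth hφ.compact (s1 φ hφ) B
      linarith
    rw [← hNdef, ← hX, ← hY] at h
    have : 0 < X ^ 2 := by nlinarith [pow_pos hN 2]
    exact lt_of_le_of_ne hX0 fun h0 => by rw [← h0] at this; norm_num at this
  have hδ : 0 < Real.exp (-|B| * l₀ ^ 2) := Real.exp_pos _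
  -- the upper bound for the minimum
  have hup : ∀ d, 0 ≤ d → (¬ ∀ y ∈ Icc 0 l₀, 0 < V0 |B| d y) → 2 * X * Y / N ^ 2 ≤ |B| + d := by
    intro d hd hnot
    refine le_of_forall_pos_le_add fun η hη => ?_
    obtain ⟨φ, hφ, hpos, h1, h2⟩ := upper_of_not hd hnot hη
    obtain ⟨e0, e1, e2⟩ := test_nrm hφ B
    have hn : nrm (rect 1) φ ≠ 0 := fun h0 => by
      rw [h0] at e0
      norm_num at e0
      linarith
    refine (hmin φ _ _ (test_isW0 hφ) hn).trans ?_
    rw [← e0] at h1 h2 hpos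
    rw [← e1] at h1
    rw [← e2] at h2
    rw [div_le_iff₀ hpos]
    have h3 := two_mul_le_add_sq (nrm (rect 1) (mag1 B φ (pd1 φ)))
      (nrm (rect 1) (mag2 B φ (pd2 φ)))
    linarith
  constructor
  · refine abstract_ratio (b := |B|) hYpos hN hδ rfl
      (fun d => ∀ y ∈ Icc 0 l₀, 0 < V0 |B| d y) (fun y _ => by rw [V0_d_zero]; exact one_pos)
      ?_ hup
    intro d hd hp s hs
    have hs0 : 0 < s := by linarith
    refine w0_ineq (B := B) hW fun φ hφ => ?_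
    have h := lower hφ.smooth hφ.compact hs0 (m := 1 / 2) (by norm_num) (l := l₀)
      (fun q hq => by
        have h1 := s2 φ hφ q hq
        have h2 := sqrt_ge_of_two_le hs
        exact ⟨by linarith [h1.1], by linarith [h1.2]⟩)
      (s1 φ hφ) (B := B) hd hp
    have e : 4 * (1 / 2 : ℝ) ^ 2 * s = s := by ring
    rw [e] at h
    exact h
  · refine abstract_ratio (b := |B|) hXpos hN hδ
      (κ := 2 * X * Y / N ^ 2) (by ring)
      (fun d => ∀ y ∈ Icc 0 l₀, 0 < V0 |B| d y) (fun y _ => by rw [V0_d_zero]; exact one_pos)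
      ?_ hup
    intro d hd hp s hs
    have hs0 : 0 < s := by linarith
    have h' := w0_ineq (B := B) hW (C := |B| + d + Real.exp (-|B| * l₀ ^ 2) / s) (α := s)
      (β := s⁻¹) fun φ hφ => by
      have h := lower_sw hφ.smooth hφ.compact hs0 (m := 1 / 2) (by norm_num) (l := l₀)
        (fun q hq => by
          have h1 := s1 φ hφ q hq
          have h2 := sqrt_ge_of_two_le hs
          exact ⟨by linarith [h1.1], by linarith [h1.2]⟩)
        (s2 φ hφ) (B := B) hd hp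
      have e : 4 * (1 / 2 : ℝ) ^ 2 * s = s := by ring
      rw [e] at h
      linarith
    rw [add_comm (s⁻¹ * Y ^ 2)]
    exact h'

end Pool.Agent.Lib.MP_0fe113_an
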